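import Pool.Agent.TH327.Thin.Cst

/-! The powers of a unitary have their spectrum in the spectrum of the unitary. -/

set_option autoImplicit false

open Filter Topology MeasureTheory Finset

namespace Pool.Agent.TH327.Thin

/-- the spectrum of a unitary, as a subset of the additive circle -/
def uspec {B : Type*} [CStarAlgebra B] (u : unitary B) : Set UnitAddCircle :=
  {θ : UnitAddCircle | (fourier 1 θ : ℂ) ∈ spectrum ℂ (u : B)}

theorem specIn_unitary {B : Type*} [CStarAlgebra B] (u : unitary B) :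
    SpecIn (uspec u) (fun n : ℤ => ((u ^ n : unitary B) : B)) := by
  rintro f hf ⟨U, -, hKU, hz⟩
  have hn : IsStarNormal (u : B) := inferInstance
  set X := spectrum ℂ (u : B) with hX
  set φ : C(X, ℂ) →⋆ₐ[ℂ] B := cfcHom (R := ℂ) (a := (u : B)) hn with hφ
  have hφc : Continuous φ := cfcHom_continuous (R := ℂ) hn
  have hcirc : ∀ z : X, ‖(z : ℂ)‖ = 1 := fun z => by
    have := Unitary.spectrum_subset_circle (𝕜 := ℂ) u z.2
    simpa using this
  set ζ0 : C(X, ℂ) := ContinuousMap.restrict X (.id ℂ) with hζ0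
  have hζu : ζ0 ∈ unitary C(X, ℂ) := by
    rw [Unitary.mem_iff]
    constructor <;> ext z
    · show star (z : ℂ) * z = 1
      rw [← starRingEnd_apply, ← Complex.normSq_eq_conj_mul_self, Complex.normSq_eq_norm_sq,
        hcirc z]
      simp
    · show (z : ℂ) * star (z : ℂ) = 1
      rw [mul_comm, ← starRingEnd_apply, ← Complex.normSq_eq_conj_mul_self,
        Complex.normSq_eq_norm_sq, hcirc z]
      simp
  set ζ : unitary C(X, ℂ) := ⟨ζ0, hζu⟩ with hζ
  have hmap : Unitary.map (StarMonoidHom.ofClass φ) ζ = u := by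
    apply Subtype.ext
    show φ ζ0 = (u : B)
    exact cfcHom_id hn
  have hpow : ∀ n : ℤ, ((u ^ n : unitary B) : B) = φ ((ζ ^ n : unitary C(X, ℂ)) : C(X, ℂ)) := by
    intro n
    conv_lhs => rw [← hmap, ← map_zpow]
    rfl
  have hev : ∀ (n : ℤ) (z : X), ((ζ ^ n : unitary C(X, ℂ)) : C(X, ℂ)) z = (z : ℂ) ^ n := by
    intro n z
    rcases n with n | n
    · simp only [Int.ofNat_eq_natCast, zpow_natCast]
      rfl
    · simp only [zpow_negSucc]
      have h1 : (((ζ ^ (n + 1))⁻¹ : unitary C(X, ℂ)) : C(X, ℂ)) =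
          star (((ζ ^ (n + 1) : unitary C(X, ℂ)) : C(X, ℂ))) := rfl
      rw [h1]
      show star ((z : ℂ) ^ (n + 1)) = _
      have h2 : ‖(z : ℂ) ^ (n + 1)‖ = 1 := by rw [norm_pow, hcirc z, one_pow]
      rw [← starRingEnd_apply, Complex.inv_def, Complex.normSq_eq_norm_sq, h2]
      simp
  have hnorm : ∀ n : ℤ, ‖((ζ ^ n : unitary C(X, ℂ)) : C(X, ℂ))‖ ≤ 1 := by
    intro n
    rw [ContinuousMap.norm_le _ zero_le_one]
    intro z
    rw [hev, norm_zpow, hcirc z, one_zpow]
  have hs : Summable fun n : ℤ => f n • ((ζ ^ n : unitary C(X, ℂ)) : C(X, ℂ)) := by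
    refine Summable.of_norm_bounded hf fun n => ?_
    rw [norm_smul]
    exact mul_le_of_le_one_right (norm_nonneg _) (hnorm n)
  have h0 : ∑' n : ℤ, f n • ((ζ ^ n : unitary C(X, ℂ)) : C(X, ℂ)) = 0 := by
    ext z
    rw [← ContinuousMap.tsum_apply hs]
    obtain ⟨θ, hθ⟩ : ∃ θ : UnitAddCircle, (AddCircle.toCircle θ : ℂ) = z := by
      obtain ⟨w, hw⟩ : ∃ w : Circle, (w : ℂ) = z :=
        ⟨⟨(z : ℂ), by simpa [Submonoid.unitSphere] using hcirc z⟩, rfl⟩
      refine ⟨(AddCircle.homeomorphCircle (one_ne_zero)).symm w, ?_⟩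
      rw [← AddCircle.homeomorphCircle_apply one_ne_zero, Homeomorph.apply_symm_apply, hw]
    have hθK : θ ∈ uspec u := by
      show (fourier 1 θ : ℂ) ∈ spectrum ℂ (u : B)
      rw [fourier_one, hθ]
      exact z.2
    have := hz θ (hKU hθK)
    rw [ContinuousMap.zero_apply, ← this]
    refine tsum_congr fun n => ?_
    rw [ContinuousMap.smul_apply, smul_eq_mul, hev, ← hθ, fourier_apply,
      AddCircle.toCircle_zsmul, Circle.coe_zpow]
  calc ∑' n : ℤ, f n • ((u ^ n : unitary B) : B)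
      = ∑' n : ℤ, φ (f n • ((ζ ^ n : unitary C(X, ℂ)) : C(X, ℂ))) := by
        refine tsum_congr fun n => ?_
        rw [map_smul, hpow]
    _ = φ (∑' n : ℤ, f n • ((ζ ^ n : unitary C(X, ℂ)) : C(X, ℂ))) :=
        (hs.map_tsum φ hφc).symm
    _ = 0 := by rw [h0, map_zero]

lemma norm_unitary_zpow {B : Type*} [CStarAlgebra B] (u : unitary B) (n : ℤ) :
    ‖((u ^ n : unitary B) : B)‖ ≤ 1 := by
  rcases subsingleton_or_nontrivial B with h | h
  · rw [Subsingleton.elim ((u ^ n : unitary B) : B) 0, norm_zero]; exact zero_le_one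
  · exact (CStarRing.norm_coe_unitary (u ^ n)).le

lemma specIn_unitary_neg {B : Type*} [CStarAlgebra B] (u : unitary B) :
    SpecIn {θ | -θ ∈ uspec u} (fun n : ℤ => ((u ^ (-n) : unitary B) : B)) := by
  have h := specIn_star (specIn_unitary u)
  have e : (fun n : ℤ => star ((u ^ n : unitary B) : B)) =
      (fun n : ℤ => ((u ^ (-n) : unitary B) : B)) := by
    funext n
    rw [zpow_neg]
    rfl
  rwa [e] at h

/-- inner automorphisms of a C*-algebra: the twisted sums have small operator norm -/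
theorem inner_bound {B : Type*} [CStarAlgebra B] (u v : unitary B) (hu : Thin (uspec u))
    (hv : Thin (uspec v)) (U : ℕ) :
    ∃ C : ℝ, ∀ (x : B) (N : ℕ), 2 ≤ N → ∀ θ : UnitAddCircle,
      ‖∑ n ∈ Icc 1 N, (((ArithmeticFunction.moebius n : ℤ) : ℂ) * fourier n θ) •
        (((u ^ n : unitary B) : B) * x * ((v⁻¹ ^ n : unitary B) : B))‖ ≤
        C * ‖x‖ * (N / Real.log N ^ U) := by
  obtain ⟨C₀, -, hC₀⟩ := base
  obtain ⟨Cu, Au, hTu⟩ := hu
  obtain ⟨Cv, Av, hTv⟩ := thin_neg hv
  refine ⟨300 * Cv * (300 * Cu * C₀ (U + Av + Au)), fun x N hN θ => ?_⟩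
  have h1 := Mob.step (ContinuousLinearMap.mul ℂ B).flip
    (fun y a => (by
      simpa [mul_comm ‖y‖] using norm_mul_le a y))
    (norm_unitary_zpow u) (specIn_unitary u) hTu (Mob.const hC₀ x)
  have h2 := Mob.step (ContinuousLinearMap.mul ℂ B) (fun y a => norm_mul_le _ _)
    (fun n => norm_unitary_zpow v (-n)) (specIn_unitary_neg v) hTv h1
  have h3 := h2 U N hN N le_rfl θ
  refine le_trans (le_of_eq ?_) (h3.trans (le_of_eq (by ring)))
  congr 1
  refine Finset.sum_congr rfl fun n _ => ?_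
  simp only [ContinuousLinearMap.flip_apply, ContinuousLinearMap.mul_apply']
  rw [zpow_neg, zpow_natCast, inv_pow]
  simp

end Pool.Agent.TH327.Thin
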