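import Pool.Agent.TH327.Thin.Dyn

/-! The shift on the bounded sequences with spectrum in a given set. -/

set_option autoImplicit false

open Filter Topology MeasureTheory

namespace Pool.Agent.TH327.Thin

/-- the sequences bounded by one with spectrum in `K` -/
def XK (K : Set UnitAddCircle) : Set (ℤ → ℂ) := {a | (∀ n, ‖a n‖ ≤ 1) ∧ SpecIn K a}

lemma specIn_shift {K : Set UnitAddCircle} {a : ℤ → ℂ} (h : SpecIn K a) (m : ℤ) :
    SpecIn K (fun n => a (n + m)) := by
  rintro f hf ⟨U, hU, hKU, hz⟩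
  have h1 := h (fun n => f (n - m)) ((Equiv.subRight m).summable_iff.2 hf |>.congr fun _ => rfl)
    ⟨U, hU, hKU, fun η hη => ?_⟩
  · rw [← h1, ← (Equiv.subRight m).tsum_eq]
    refine tsum_congr fun n => ?_
    simp
  · have h2 := hz η hη
    rw [← (Equiv.addRight m).tsum_eq]
    have : ∀ n : ℤ, f ((Equiv.addRight m) n - m) * fourier ((Equiv.addRight m) n) η =
        (f n * fourier n η) * fourier m η := by
      intro n
      simp only [Equiv.coe_addRight, add_sub_cancel_right]
      rw [fourier_add, mul_assoc]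
    rw [tsum_congr this, tsum_mul_right, h2, zero_mul]

lemma isClosed_XK (K : Set UnitAddCircle) : IsClosed (XK K) := by
  have e : XK K = {a : ℤ → ℂ | ∀ n, ‖a n‖ ≤ 1} ∩ ⋂ (f : ℤ → ℂ), ⋂ (_ : Summable fun n => ‖f n‖),
      ⋂ (_ : ∃ U : Set UnitAddCircle, IsOpen U ∧ K ⊆ U ∧
        ∀ η ∈ U, ∑' n, f n * fourier n η = 0), {a : ℤ → ℂ | (∀ n, ‖a n‖ ≤ 1) ∧
          ∑' n, f n • a n = 0} := by
    ext a
    simp only [XK, SpecIn, Set.mem_ofPred_eq, Set.mem_inter_iff, Set.mem_iInter]
    exact ⟨fun h => ⟨h.1, fun f hf hU => ⟨h.1, h.2 f hf hU⟩⟩,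
      fun h => ⟨h.1, fun f hf hU => (h.2 f hf hU).2⟩⟩
  have hb : IsClosed {a : ℤ → ℂ | ∀ n, ‖a n‖ ≤ 1} := by
    have : {a : ℤ → ℂ | ∀ n, ‖a n‖ ≤ 1} = ⋂ n : ℤ, {a : ℤ → ℂ | ‖a n‖ ≤ 1} := by
      ext a; simp
    rw [this]
    exact isClosed_iInter fun n => isClosed_le (by fun_prop) continuous_const
  rw [e]
  refine hb.inter (isClosed_iInter fun f => isClosed_iInter fun hf => isClosed_iInter fun _ => ?_)
  have hc : ContinuousOn (fun a : ℤ → ℂ => ∑' n, f n • a n) {a : ℤ → ℂ | ∀ n, ‖a n‖ ≤ 1} := by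
    refine continuousOn_tsum (u := fun n => ‖f n‖) (fun n => ?_) hf fun n a ha => ?_
    · exact (Continuous.continuousOn (by fun_prop))
    · rw [norm_smul]
      exact mul_le_of_le_one_right (norm_nonneg _) (ha n)
  have := hc.preimage_isClosed_of_isClosed hb (isClosed_singleton (x := (0 : ℂ)))
  have e2 : {a : ℤ → ℂ | (∀ n, ‖a n‖ ≤ 1) ∧ ∑' n, f n • a n = 0} =
      {a | ∀ (n : ℤ), ‖a n‖ ≤ 1} ∩ (fun a : ℤ → ℂ => ∑' (n : ℤ), f n • a n) ⁻¹' {0} := by
    ext a
    exact Iff.rfl
  rw [e2]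
  exact this

instance instCompactXK (K : Set UnitAddCircle) : CompactSpace (XK K) := by
  rw [← isCompact_iff_compactSpace]
  have h : IsCompact (Set.pi Set.univ fun _ : ℤ => Metric.closedBall (0 : ℂ) 1) :=
    isCompact_univ_pi fun _ => isCompact_closedBall _ _
  refine h.of_isClosed_subset (isClosed_XK K) fun a ha _n _ => ?_
  simpa using ha.1 _n

/-- the shift -/
def shiftK (K : Set UnitAddCircle) (a : XK K) : XK K :=
  ⟨fun n => a.1 (n + 1), fun n => a.2.1 _, specIn_shift a.2.2 1⟩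

lemma shiftK_iter (K : Set UnitAddCircle) (a : XK K) (n : ℕ) (m : ℤ) :
    ((shiftK K)^[n] a).1 m = a.1 (m + n) := by
  induction n generalizing a with
  | zero => simp
  | succ n ih =>
    rw [Function.iterate_succ_apply, ih]
    show a.1 (m + n + 1) = _
    push_cast
    rw [add_assoc]

lemma continuous_shiftK (K : Set UnitAddCircle) : Continuous (shiftK K) := by
  refine Continuous.subtype_mk ?_ _
  exact continuous_pi fun n => (continuous_apply (n + 1)).comp continuous_subtype_val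

/-- the coordinates -/
def coordK (K : Set UnitAddCircle) (m : ℤ) : C(XK K, ℂ) :=
  ⟨fun a => a.1 m, (continuous_apply m).comp continuous_subtype_val⟩

lemma thin_coordK {K : Set UnitAddCircle} (hK : Thin K) (m : ℤ) :
    ThinFun (shiftK K) (coordK K m) := by
  refine ⟨K, 1, hK, fun a => ⟨fun n => a.1 (n + m), fun n => a.2.1 _, fun n _ => ?_,
    specIn_shift a.2.2 m⟩⟩
  show _ = ((shiftK K)^[n] a).1 m
  rw [shiftK_iter, add_comm]

lemma coordK_separates (K : Set UnitAddCircle) {a b : XK K} (h : a ≠ b) :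
    ∃ m, coordK K m a ≠ coordK K m b := by
  by_contra hc
  push Not at hc
  exact h (Subtype.ext (funext hc))

section

variable {X : Type*} [TopologicalSpace X] [CompactSpace X] (T : X → X)

/-- if the functions of thin spectrum separate the points, the generated algebra is dense -/
lemma dense_of_separates {S : Set C(X, ℂ)}
    (h : ∀ x y : X, x ≠ y → ∃ f ∈ S, f x ≠ f y) :
    Dense ((StarAlgebra.adjoin ℂ S : StarSubalgebra ℂ C(X, ℂ)) : Set C(X, ℂ)) := by
  have h1 := ContinuousMap.starSubalgebra_topologicalClosure_eq_top_of_separatesPoints (𝕜 := ℂ)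
    (StarAlgebra.adjoin ℂ S) ?_
  · rw [dense_iff_closure_eq, ← StarSubalgebra.topologicalClosure_coe, h1]
    rfl
  · intro x y hxy
    obtain ⟨f, hf, hne⟩ := h x y hxy
    exact ⟨f, ⟨f, StarAlgebra.subset_adjoin ℂ S hf, rfl⟩, hne⟩

end

section hilbert

variable {X : Type*} [TopologicalSpace X] [CompactSpace X] (T : X → X)
  {H : Type*} [NormedAddCommGroup H] [InnerProductSpace ℂ H] [CompleteSpace H]

lemma thin_inner (V : unitary (H →L[ℂ] H)) (hV : Thin (uspec V)) (π : X → H)
    (hc : ∀ η : H, Continuous fun x => inner ℂ η (π x))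
    (hT : ∀ x, π (T x) = (V : H →L[ℂ] H) (π x)) (η : H) :
    ThinFun T ⟨fun x => inner ℂ η (π x), hc η⟩ := by
  -- uniform boundedness
  obtain ⟨R, hR⟩ : ∃ R, ∀ x, ‖π x‖ ≤ R := by
    have := banach_steinhaus (g := fun x : X => innerSL ℂ (π x)) ?_
    · obtain ⟨R, hR⟩ := this
      exact ⟨R, fun x => by simpa using hR x⟩
    · intro η
      obtain ⟨C, hC⟩ := (isCompact_range (hc η)).isBounded.exists_norm_le
      refine ⟨C, fun x => ?_⟩
      rw [innerSL_apply_apply, norm_inner_symm]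
      exact hC _ ⟨x, rfl⟩
  have hiter : ∀ (n : ℕ) (x : X), π (T^[n] x) =
      ((V ^ n : unitary (H →L[ℂ] H)) : H →L[ℂ] H) (π x) := by
    intro n
    induction n with
    | zero => intro x; simp
    | succ n ih =>
      intro x
      rw [Function.iterate_succ_apply', hT, ih, pow_succ']
      rfl
  refine ⟨_, ‖η‖ * R, hV, fun x => ⟨fun n =>
    inner ℂ η (((V ^ n : unitary (H →L[ℂ] H)) : H →L[ℂ] H) (π x)), fun n => ?_, fun n _ => ?_, ?_⟩⟩
  · refine (norm_inner_le_norm _ _).trans ?_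
    refine mul_le_mul_of_nonneg_left ?_ (norm_nonneg _)
    refine (ContinuousLinearMap.le_opNorm _ _).trans ?_
    calc _ ≤ 1 * ‖π x‖ := mul_le_mul_of_nonneg_right (norm_unitary_zpow V n) (norm_nonneg _)
      _ ≤ R := by rw [one_mul]; exact hR x
  · show inner ℂ η (((V ^ (n : ℤ) : unitary (H →L[ℂ] H)) : H →L[ℂ] H) (π x)) =
      inner ℂ η (π (T^[n] x))
    rw [hiter, zpow_natCast]
  · intro f hf hU
    have h0 := specIn_unitary V f hf hU
    have hs : Summable fun n : ℤ => f n • ((V ^ n : unitary (H →L[ℂ] H)) : H →L[ℂ] H) := by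
      refine Summable.of_norm_bounded hf fun n => ?_
      rw [norm_smul]
      exact mul_le_of_le_one_right (norm_nonneg _) (norm_unitary_zpow V n)
    have h1 := ((innerSL ℂ η).comp (ContinuousLinearMap.apply ℂ H (π x))).map_tsum hs
    rw [h0, map_zero] at h1
    rw [h1]
    refine tsum_congr fun n => ?_
    rw [map_smul]
    rfl

end hilbert

end Pool.Agent.TH327.Thin
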