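import Pool.Agent.TH327.Thin.Base

/-! Automorphisms of C*-algebras generated by elements of thin spectrum. -/

set_option autoImplicit false

open Filter Topology MeasureTheory Finset

namespace Pool.Agent.TH327.Thin

section star

variable {A : Type*} [NonUnitalCStarAlgebra A]

lemma specIn_star {K : Set UnitAddCircle} {a : ℤ → A} (h : SpecIn K a) :
    SpecIn {η | -η ∈ K} (fun n => star (a n)) := by
  intro f hf hU
  obtain ⟨U, hU, hKU, hz⟩ := hU
  have h1 := h (fun n => star (f n)) (by simpa using hf)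
    ⟨{η | -η ∈ U}, hU.preimage continuous_neg, fun η hη => hKU (by simpa using hη), ?_⟩
  · have h2 := congrArg star h1
    rw [star_zero, tsum_star] at h2
    rw [← h2]
    refine tsum_congr fun n => ?_
    rw [star_smul, star_star]
  · intro η hη
    have h3 := hz (-η) hη
    have h4 := congrArg star h3
    rw [star_zero, tsum_star] at h4
    rw [← h4]
    refine tsum_congr fun n => ?_
    rw [star_mul', ← starRingEnd_apply (fourier n (-η)), ← fourier_neg]
    congr 1
    rw [fourier_apply, fourier_apply]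
    simp

lemma thin_neg {K : Set UnitAddCircle} (h : Thin K) : Thin {η | -η ∈ K} := by
  obtain ⟨C, B, h⟩ := h
  refine ⟨C, B, fun N hN => ?_⟩
  obtain ⟨S, h1, h2⟩ := h N hN
  classical
  refine ⟨S.image (fun s => -s), ?_, ?_⟩
  · refine le_trans ?_ h1
    exact_mod_cast card_image_le
  · intro ζ hζ
    obtain ⟨s, hs, hd⟩ := h2 (-ζ) hζ
    refine ⟨-s, mem_image_of_mem _ hs, ?_⟩
    have e : ζ - -s = -(-ζ - s) := by abel
    rw [e, norm_neg]
    exact hd

end star

/-- the two-sided orbit -/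
def orb {A : Type*} [NonUnitalCStarAlgebra A] (α : A ≃⋆ₐ[ℂ] A) (x : A) (n : ℤ) : A := (α ^ n) x

section

variable {A : Type*} [NonUnitalCStarAlgebra A] (α : A ≃⋆ₐ[ℂ] A)

lemma norm_orb (x : A) (n : ℤ) : ‖orb α x n‖ = ‖x‖ :=
  NonUnitalStarAlgHom.norm_map (α ^ n) (α ^ n).injective x

lemma orb_mul (x y : A) (n : ℤ) : orb α (x * y) n = orb α x n * orb α y n := map_mul _ _ _

lemma orb_add (x y : A) (n : ℤ) : orb α (x + y) n = orb α x n + orb α y n := map_add _ _ _

lemma orb_sub (x y : A) (n : ℤ) : orb α (x - y) n = orb α x n - orb α y n := map_sub _ _ _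

lemma orb_smul (c : ℂ) (x : A) (n : ℤ) : orb α (c • x) n = c • orb α x n := map_smul _ _ _

lemma orb_star (x : A) (n : ℤ) : orb α (star x) n = star (orb α x n) := map_star _ _

lemma orb_zero (n : ℤ) : orb α (0 : A) n = 0 := map_zero _

/-- the elements whose orbit preserves the class of sequences orthogonal to the Moebius function -/
def mult : NonUnitalSubalgebra ℂ A where
  carrier := {x | (∃ C, Mob C (fun n : ℕ => orb α x n)) ∧
    ∀ (C : ℕ → ℝ) (y : ℕ → A), Mob C y → ∃ D, Mob D (fun n : ℕ => y n * orb α x n)}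
  add_mem' := by
    rintro x z ⟨⟨C, hC⟩, hx⟩ ⟨⟨D, hD⟩, hz⟩
    refine ⟨⟨_, by simpa only [orb_add] using hC.add hD⟩, fun C y hy => ?_⟩
    obtain ⟨D1, h1⟩ := hx C y hy
    obtain ⟨D2, h2⟩ := hz C y hy
    exact ⟨_, by simpa only [orb_add, mul_add] using h1.add h2⟩
  zero_mem' := ⟨⟨_, by simpa only [orb_zero] using Mob.zero⟩, fun C y hy =>
    ⟨_, by simpa only [orb_zero, mul_zero] using Mob.zero⟩⟩
  mul_mem' := by
    rintro x z ⟨⟨C, hC⟩, hx⟩ ⟨⟨D, hD⟩, hz⟩
    refine ⟨?_, fun C y hy => ?_⟩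
    · obtain ⟨D1, h1⟩ := hz C _ hC
      exact ⟨D1, by simpa only [orb_mul] using h1⟩
    · obtain ⟨D1, h1⟩ := hx C y hy
      obtain ⟨D2, h2⟩ := hz D1 _ h1
      exact ⟨D2, by simpa only [orb_mul, mul_assoc] using h2⟩
  smul_mem' := by
    rintro c x ⟨⟨C, hC⟩, hx⟩
    refine ⟨⟨_, by simpa only [orb_smul] using hC.smul c⟩, fun C y hy => ?_⟩
    obtain ⟨D1, h1⟩ := hx C y hy
    exact ⟨_, by simpa only [orb_smul, mul_smul_comm] using h1.smul c⟩

lemma mem_mult_of_thin {x : A} {K : Set UnitAddCircle} (hK : Thin K) (hx : SpecIn K (orb α x)) :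
    x ∈ mult α := by
  obtain ⟨Ck, Ak, hT⟩ := hK
  obtain ⟨C₀, -, hC₀⟩ := base
  have h1 := Mob.step (ContinuousLinearMap.lsmul ℂ ℂ : ℂ →L[ℂ] A →L[ℂ] A)
      (fun u v => (norm_smul_le _ _)) (fun n => (norm_orb α x n).le) hx hT
      (Mob.const hC₀ (1 : ℂ))
  simp only [ContinuousLinearMap.lsmul_apply, one_smul] at h1
  exact ⟨⟨_, h1⟩, fun C y hy => ⟨_, Mob.step (ContinuousLinearMap.mul ℂ A)
    (fun u v => norm_mul_le _ _) (fun n => (norm_orb α x n).le) hx hT hy⟩⟩

theorem mob_of_adjoin {S : Set A}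
    (hS : ∀ x ∈ S, ∃ K : Set UnitAddCircle, Thin K ∧ SpecIn K (orb α x)) {x : A}
    (hx : x ∈ NonUnitalStarAlgebra.adjoin ℂ S) : ∃ C, Mob C (fun n : ℕ => orb α x n) := by
  have h : NonUnitalAlgebra.adjoin ℂ (S ∪ star S) ≤ mult α := by
    rw [NonUnitalAlgebra.adjoin_le_iff]
    rintro z (hz | hz)
    · obtain ⟨K, hK, hK2⟩ := hS z hz
      exact mem_mult_of_thin α hK hK2
    · obtain ⟨K, hK, hK2⟩ := hS (star z) hz
      refine mem_mult_of_thin α (thin_neg hK) ?_
      have := specIn_star hK2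
      simpa only [orb_star, star_star] using this
  exact (h hx).1

theorem disj_of_dense {S : Set A}
    (hS : ∀ x ∈ S, ∃ K : Set UnitAddCircle, Thin K ∧ SpecIn K (orb α x))
    (hd : Dense ((NonUnitalStarAlgebra.adjoin ℂ S : NonUnitalStarSubalgebra ℂ A) : Set A))
    (x : A) {ε : ℝ} (hε : 0 < ε) :
    ∃ N0 : ℕ, ∀ N ≥ N0, ∀ θ : UnitAddCircle,
      ‖∑ n ∈ Icc 1 N, (((ArithmeticFunction.moebius n : ℤ) : ℂ) * fourier n θ) • orb α x n‖ ≤
        ε * N := by
  have hx : x ∈ closure ((NonUnitalStarAlgebra.adjoin ℂ S : NonUnitalStarSubalgebra ℂ A) : Set A) :=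
    hd x
  obtain ⟨z, hz, hzx⟩ := Metric.mem_closure_iff.1 hx (ε / 2) (by positivity)
  obtain ⟨C, hC⟩ := mob_of_adjoin α hS hz
  have hlim : Tendsto (fun N : ℕ => C 1 / Real.log N ^ 1) atTop (𝓝 0) := by
    simp only [pow_one]
    exact Tendsto.div_atTop tendsto_const_nhds
      (Real.tendsto_log_atTop.comp tendsto_natCast_atTop_atTop)
  obtain ⟨N1, h1⟩ := eventually_atTop.1 (hlim.eventually (gt_mem_nhds (by positivity : 0 < ε / 2)))
  refine ⟨max N1 2, fun N hN θ => ?_⟩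
  have hN1 : N1 ≤ N := le_trans (le_max_left _ _) hN
  have hN2 : 2 ≤ N := le_trans (le_max_right _ _) hN
  have hN0 : (0 : ℝ) < N := by positivity
  have e : ∑ n ∈ Icc 1 N, (((ArithmeticFunction.moebius n : ℤ) : ℂ) * fourier n θ) • orb α x n =
      ∑ n ∈ Icc 1 N, (((ArithmeticFunction.moebius n : ℤ) : ℂ) * fourier n θ) • orb α (x - z) n +
      ∑ n ∈ Icc 1 N, (((ArithmeticFunction.moebius n : ℤ) : ℂ) * fourier n θ) • orb α z n := by
    rw [← Finset.sum_add_distrib]
    refine Finset.sum_congr rfl fun n _ => ?_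
    rw [← smul_add, ← orb_add, sub_add_cancel]
  rw [e]
  refine (norm_add_le _ _).trans ?_
  have b1 : ‖∑ n ∈ Icc 1 N, (((ArithmeticFunction.moebius n : ℤ) : ℂ) * fourier n θ) •
      orb α (x - z) n‖ ≤ ε / 2 * N := by
    refine (norm_sum_le _ _).trans ?_
    calc _ ≤ ∑ n ∈ Icc 1 N, (ε / 2) := by
          refine sum_le_sum fun n _ => ?_
          rw [norm_smul, norm_orb, norm_mul, norm_fourier_apply, mul_one, Complex.norm_intCast]
          have h3 : |((ArithmeticFunction.moebius n : ℤ) : ℝ)| ≤ 1 := by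
            exact_mod_cast ArithmeticFunction.abs_moebius_le_one
          have h4 : ‖x - z‖ ≤ ε / 2 := by
            rw [← dist_eq_norm]; exact hzx.le
          calc _ ≤ 1 * (ε / 2) := mul_le_mul h3 h4 (norm_nonneg _) zero_le_one
            _ = _ := one_mul _
      _ = _ := by simp [mul_comm]
  have b2 := hC 1 N hN2 N le_rfl θ
  have b3 : C 1 * (N / Real.log N ^ 1) ≤ ε / 2 * N := by
    have := (h1 N hN1).le
    calc C 1 * (N / Real.log N ^ 1) = C 1 / Real.log N ^ 1 * N := by ring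
      _ ≤ ε / 2 * N := mul_le_mul_of_nonneg_right this hN0.le
  linarith

end

end Pool.Agent.TH327.Thin
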