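import Pool.Agent.TH327.Thin.Step
import Pool.Agent.H373R2.T7.SupMu

/-! The linear exponential sums of the Moebius function, and sequences which the Moebius function
does not correlate with. -/

set_option autoImplicit false

open Filter Topology MeasureTheory Finset

namespace Pool.Agent.TH327.Thin

open Pool.Agent.H373R2.T7 Pool.Agent.H807R2.Dav

lemma log_pow_le (U : ℕ) (N : ℕ) (hN : 1 ≤ N) :
    Real.log N ^ U ≤ 2 ^ U * (U.factorial : ℝ) * √N := by
  have hN0 : (0 : ℝ) < N := by exact_mod_cast hN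
  have hl : 0 ≤ Real.log N := Real.log_nonneg (by exact_mod_cast hN)
  have h := Real.pow_div_factorial_le_exp (Real.log N / 2) (div_nonneg hl two_pos.le) U
  have e : Real.exp (Real.log N / 2) = √N := by
    rw [Real.sqrt_eq_rpow, Real.rpow_def_of_pos hN0]
    congr 1; ring
  rw [e, div_le_iff₀ (by positivity), div_pow, div_le_iff₀ (by positivity)] at h
  linarith

theorem base : ∃ C₀ : ℕ → ℝ, (∀ U, 0 ≤ C₀ U) ∧ ∀ U N : ℕ, 2 ≤ N → ∀ t ≤ N, ∀ θ : UnitAddCircle,
    ‖∑ n ∈ Icc 1 t, ((ArithmeticFunction.moebius n : ℤ) : ℂ) * fourier n θ‖ ≤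
      C₀ U * (N / Real.log N ^ U) := by
  have h : ∀ U : ℕ, ∃ C : ℝ, 0 ≤ C ∧ ∀ N : ℕ, 2 ≤ N → ∀ t ≤ N, ∀ θ : UnitAddCircle,
    ‖∑ n ∈ Icc 1 t, ((ArithmeticFunction.moebius n : ℤ) : ℂ) * fourier n θ‖ ≤
      C * (N / Real.log N ^ U) := by
    intro U
    obtain ⟨N0, h0⟩ := sup_mu U
    refine ⟨2 ^ U * (U.factorial : ℝ) + 2 ^ U + (2 * Real.log (N0 + 1)) ^ U, ?_,
      fun N hN t ht θ => ?_⟩
    · have : 0 ≤ Real.log ((N0 : ℝ) + 1) := Real.log_nonneg (by
        have : (0 : ℝ) ≤ N0 := Nat.cast_nonneg _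
        linarith)
      positivity
    · have hN2 : (2 : ℝ) ≤ N := by exact_mod_cast hN
      have hN0 : (0 : ℝ) < N := by linarith
      have hlN : 0 < Real.log N := Real.log_pos (by linarith)
      have hl0 : 0 ≤ Real.log ((N0 : ℝ) + 1) := Real.log_nonneg (by
        have : (0 : ℝ) ≤ N0 := Nat.cast_nonneg _
        linarith)
      have htN : (t : ℝ) ≤ N := by exact_mod_cast ht
      have htriv : ‖∑ n ∈ Icc 1 t, ((ArithmeticFunction.moebius n : ℤ) : ℂ) * fourier n θ‖ ≤ t := by
        refine (norm_sum_le _ _).trans ?_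
        calc ∑ n ∈ Icc 1 t, ‖((ArithmeticFunction.moebius n : ℤ) : ℂ) * fourier n θ‖
            ≤ ∑ n ∈ Icc 1 t, (1 : ℝ) := by
              refine sum_le_sum fun n _ => ?_
              rw [norm_mul, norm_fourier_apply, mul_one, Complex.norm_intCast]
              exact_mod_cast ArithmeticFunction.abs_moebius_le_one
          _ = t := by simp
      have hpos1 : 0 ≤ (N : ℝ) / Real.log N ^ U := by positivity
      by_cases hc1 : t * t ≤ N
      · have h1 : (t : ℝ) ≤ √N := by
          apply Real.le_sqrt_of_sq_le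
          have : ((t * t : ℕ) : ℝ) ≤ N := by exact_mod_cast hc1
          push_cast at this
          nlinarith
        have h2 : √(N : ℝ) ≤ 2 ^ U * (U.factorial : ℝ) * (N / Real.log N ^ U) := by
          rw [mul_div_assoc', le_div_iff₀ (by positivity)]
          calc √(N : ℝ) * Real.log N ^ U ≤ √(N : ℝ) * (2 ^ U * (U.factorial : ℝ) * √N) := by
                gcongr
                exact log_pow_le U N (by omega)
            _ = 2 ^ U * (U.factorial : ℝ) * (√(N : ℝ) * √N) := by ring
            _ = _ := by rw [Real.mul_self_sqrt hN0.le]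
        refine (htriv.trans (h1.trans h2)).trans ?_
        apply mul_le_mul_of_nonneg_right _ hpos1
        have : (0 : ℝ) ≤ 2 ^ U + (2 * Real.log ((N0 : ℝ) + 1)) ^ U := by positivity
        linarith
      · push Not at hc1
        have ht2 : 2 ≤ t := by nlinarith
        have ht2r : (2 : ℝ) ≤ t := by exact_mod_cast ht2
        have hlt : Real.log N ≤ 2 * Real.log t := by
          have : Real.log N ≤ Real.log ((t : ℝ) * t) := by
            apply Real.log_le_log hN0
            exact_mod_cast hc1.le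
          rw [Real.log_mul (by positivity) (by positivity)] at this
          linarith
        by_cases hc2 : N0 ≤ t
        · induction θ using QuotientAddGroup.induction_on with
          | H z =>
            have h3 := h0 t hc2 z
            have e : ∑ n ∈ Icc 1 t, ((ArithmeticFunction.moebius n : ℤ) : ℂ) *
                fourier n (z : UnitAddCircle) =
                ∑ n ∈ Icc 1 t, ((muR n : ℝ) : ℂ) * ee ((n : ℝ) * z) := by
              refine Finset.sum_congr rfl fun n _ => ?_
              rw [fourier_coe]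
              unfold muR ee
              push_cast
              congr 2
              ring
            rw [show ((z : ℝ) : UnitAddCircle) = (QuotientAddGroup.mk z : UnitAddCircle) from rfl] at e
            rw [e]
            refine h3.trans ?_
            have h4 : (t : ℝ) / Real.log t ^ U ≤ 2 ^ U * (N / Real.log N ^ U) := by
              have hlt0 : 0 < Real.log t := Real.log_pos (by linarith)
              rw [mul_div_assoc', div_le_div_iff₀ (by positivity) (by positivity)]
              calc (t : ℝ) * Real.log N ^ U ≤ N * (2 * Real.log t) ^ U := by gcongr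
                _ = 2 ^ U * N * Real.log t ^ U := by rw [mul_pow]; ring
            refine h4.trans ?_
            apply mul_le_mul_of_nonneg_right _ hpos1
            have : (0 : ℝ) ≤ 2 ^ U * (U.factorial : ℝ) + (2 * Real.log ((N0 : ℝ) + 1)) ^ U := by
              positivity
            linarith
        · push Not at hc2
          have h5 : (N : ℝ) ≤ (2 * Real.log ((N0 : ℝ) + 1)) ^ U * (N / Real.log N ^ U) := by
            rw [mul_div_assoc', le_div_iff₀ (by positivity), mul_comm]
            apply mul_le_mul_of_nonneg_right _ hN0.le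
            apply pow_le_pow_left₀ hlN.le
            refine hlt.trans ?_
            have : Real.log t ≤ Real.log ((N0 : ℝ) + 1) := by
              apply Real.log_le_log (by linarith)
              have : (t : ℝ) < N0 := by exact_mod_cast hc2
              linarith
            linarith
          refine (htriv.trans (htN.trans h5)).trans ?_
          apply mul_le_mul_of_nonneg_right _ hpos1
          have : (0 : ℝ) ≤ 2 ^ U * (U.factorial : ℝ) + 2 ^ U := by positivity
          linarith
  choose C hC0 hC using h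
  exact ⟨C, hC0, hC⟩

/-- the partial sums of `μ(n) e(nθ) y n`, for all `θ`, are at most `C U * N / (log N) ^ U` -/
def Mob {Y : Type*} [NormedAddCommGroup Y] [NormedSpace ℂ Y] (C : ℕ → ℝ) (y : ℕ → Y) : Prop :=
  ∀ U N : ℕ, 2 ≤ N → ∀ t ≤ N, ∀ θ : UnitAddCircle,
    ‖∑ n ∈ Icc 1 t, (((ArithmeticFunction.moebius n : ℤ) : ℂ) * fourier n θ) • y n‖ ≤
      C U * (N / Real.log N ^ U)

section

variable {Y E Z : Type*} [NormedAddCommGroup Y] [NormedSpace ℂ Y]
  [NormedAddCommGroup E] [NormedSpace ℂ E]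
  [NormedAddCommGroup Z] [NormedSpace ℂ Z]

lemma Mob.const {C₀ : ℕ → ℝ} (h : ∀ U N : ℕ, 2 ≤ N → ∀ t ≤ N, ∀ θ : UnitAddCircle,
    ‖∑ n ∈ Icc 1 t, ((ArithmeticFunction.moebius n : ℤ) : ℂ) * fourier n θ‖ ≤
      C₀ U * (N / Real.log N ^ U)) (y : Y) : Mob (fun U => C₀ U * ‖y‖) (fun _ => y) := by
  intro U N hN t ht θ
  rw [← Finset.sum_smul, norm_smul]
  calc _ ≤ C₀ U * (N / Real.log N ^ U) * ‖y‖ :=
        mul_le_mul_of_nonneg_right (h U N hN t ht θ) (norm_nonneg _)
    _ = _ := by ring

lemma Mob.add {C D : ℕ → ℝ} {y z : ℕ → Y} (hy : Mob C y) (hz : Mob D z) :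
    Mob (fun U => C U + D U) (fun n => y n + z n) := by
  intro U N hN t ht θ
  simp only [smul_add, Finset.sum_add_distrib]
  refine (norm_add_le _ _).trans ?_
  rw [add_mul]
  exact add_le_add (hy U N hN t ht θ) (hz U N hN t ht θ)

lemma Mob.smul {C : ℕ → ℝ} {y : ℕ → Y} (hy : Mob C y) (c : ℂ) :
    Mob (fun U => ‖c‖ * C U) (fun n => c • y n) := by
  intro U N hN t ht θ
  have : ∑ n ∈ Icc 1 t, (((ArithmeticFunction.moebius n : ℤ) : ℂ) * fourier n θ) • c • y n =
      c • ∑ n ∈ Icc 1 t, (((ArithmeticFunction.moebius n : ℤ) : ℂ) * fourier n θ) • y n := by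
    rw [Finset.smul_sum]
    refine Finset.sum_congr rfl fun n _ => ?_
    rw [smul_comm]
  rw [this, norm_smul, mul_assoc]
  exact mul_le_mul_of_nonneg_left (hy U N hN t ht θ) (norm_nonneg _)

lemma Mob.zero : Mob (fun _ => 0) (fun _ => (0 : Y)) := by
  intro U N hN t ht θ
  simp

theorem Mob.step [CompleteSpace E] [CompleteSpace Z]
    (L : Y →L[ℂ] E →L[ℂ] Z) (hL : ∀ u v, ‖L u v‖ ≤ ‖u‖ * ‖v‖) {a : ℤ → E}
    {B : ℝ} (hB : ∀ n, ‖a n‖ ≤ B) {K : Set UnitAddCircle} (hK : SpecIn K a)
    {Ck Ak : ℕ} (hT : ∀ N : ℕ, 2 ≤ N → ∃ S : Finset UnitAddCircle,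
      (S.card : ℝ) ≤ Ck * Real.log N ^ Ak ∧ ∀ ζ ∈ K, ∃ s ∈ S, ‖ζ - s‖ ≤ 1 / N)
    {C : ℕ → ℝ} {y : ℕ → Y} (hy : Mob C y) :
    Mob (fun U => 300 * Ck * B * C (U + Ak)) (fun n => L (y n) (a n)) := by
  intro U N hN t ht θ
  obtain ⟨S, hS1, hS2⟩ := hT N hN
  have hB0 : 0 ≤ B := (norm_nonneg _).trans (hB 0)
  have hN2 : (2 : ℝ) ≤ N := by exact_mod_cast hN
  have hlN : 0 < Real.log N := Real.log_pos (by linarith)
  have hM := step_bound L hL hB hK hN S hS2
    (fun n => ((ArithmeticFunction.moebius n : ℤ) : ℂ) * fourier n θ) y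
    (C (U + Ak) * (N / Real.log N ^ (U + Ak))) ?_ t ht
  · refine hM.trans ?_
    have hC0 : 0 ≤ C (U + Ak) * (N / Real.log N ^ (U + Ak)) := by
      have := hy (U + Ak) N hN 0 (Nat.zero_le _) 0
      simpa using this
    calc 300 * B * (C (U + Ak) * (N / Real.log N ^ (U + Ak))) * S.card
        ≤ 300 * B * (C (U + Ak) * (N / Real.log N ^ (U + Ak))) * (Ck * Real.log N ^ Ak) := by
          gcongr
      _ = 300 * Ck * B * C (U + Ak) * (N / Real.log N ^ U) := by
          rw [pow_add]; field_simp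
  · intro s hs η
    have e : ∀ n : ℕ, (((ArithmeticFunction.moebius n : ℤ) : ℂ) * fourier n θ) * fourier n η =
        ((ArithmeticFunction.moebius n : ℤ) : ℂ) * fourier n (θ + η) := by
      intro n
      rw [mul_assoc]
      congr 1
      rw [fourier_apply, fourier_apply, fourier_apply, zsmul_add,
        AddCircle.toCircle_add, Circle.coe_mul]
    simp_rw [e]
    exact hy (U + Ak) N hN s hs (θ + η)

end

end Pool.Agent.TH327.Thin
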