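import Pool.Agent.TH327.Thin.Unit

/-! Topological dynamical systems and functions of thin spectrum. -/

set_option autoImplicit false

open Filter Topology MeasureTheory Finset

namespace Pool.Agent.TH327.Thin

lemma Mob.congr {Y : Type*} [NormedAddCommGroup Y] [NormedSpace ℂ Y] {C : ℕ → ℝ} {y z : ℕ → Y}
    (h : Mob C y) (e : ∀ n, 1 ≤ n → y n = z n) : Mob C z := by
  intro U N hN t ht θ
  have := h U N hN t ht θ
  rwa [Finset.sum_congr rfl fun n hn => by rw [e n (mem_Icc.1 hn).1]] at this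

/-- from complete sums to partial sums -/
lemma mob_of_strong {y : ℕ → ℂ} {B : ℝ} (hB : ∀ n, 1 ≤ n → ‖y n‖ ≤ B) {C : ℕ → ℝ}
    (hC : ∀ U N : ℕ, 2 ≤ N → ∀ θ : UnitAddCircle,
      ‖∑ n ∈ Icc 1 N, (((ArithmeticFunction.moebius n : ℤ) : ℂ) * fourier n θ) • y n‖ ≤
        C U * (N / Real.log N ^ U)) :
    Mob (fun U => B * (2 ^ U * (U.factorial : ℝ)) + 2 ^ U * C U) y := by
  intro U N hN t ht θ
  have hN2 : (2 : ℝ) ≤ N := by exact_mod_cast hN
  have hN0 : (0 : ℝ) < N := by linarith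
  have hlN : 0 < Real.log N := Real.log_pos (by linarith)
  have hB0 : 0 ≤ B := (norm_nonneg _).trans (hB 1 le_rfl)
  have hpos1 : 0 < (N : ℝ) / Real.log N ^ U := by positivity
  have hC0 : 0 ≤ C U := by
    have := (norm_nonneg _).trans (hC U N hN 0)
    exact nonneg_of_mul_nonneg_left this hpos1
  have htriv : ‖∑ n ∈ Icc 1 t, (((ArithmeticFunction.moebius n : ℤ) : ℂ) * fourier n θ) • y n‖ ≤
      B * t := by
    refine (norm_sum_le _ _).trans ?_
    calc ∑ n ∈ Icc 1 t, ‖(((ArithmeticFunction.moebius n : ℤ) : ℂ) * fourier n θ) • y n‖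
        ≤ ∑ n ∈ Icc 1 t, B := by
          refine sum_le_sum fun n hn => ?_
          rw [norm_smul, norm_mul, norm_fourier_apply, mul_one, Complex.norm_intCast]
          have h3 : |((ArithmeticFunction.moebius n : ℤ) : ℝ)| ≤ 1 := by
            exact_mod_cast ArithmeticFunction.abs_moebius_le_one
          calc _ ≤ 1 * B := mul_le_mul h3 (hB n (mem_Icc.1 hn).1) (norm_nonneg _) zero_le_one
            _ = B := one_mul _
      _ = B * t := by simp [mul_comm]
  by_cases hc1 : t * t ≤ N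
  · have h1 : (t : ℝ) ≤ √N := by
      apply Real.le_sqrt_of_sq_le
      have : ((t * t : ℕ) : ℝ) ≤ N := by exact_mod_cast hc1
      push_cast at this
      nlinarith
    have h2 : √(N : ℝ) ≤ 2 ^ U * (U.factorial : ℝ) * (N / Real.log N ^ U) := by
      rw [mul_div_assoc', le_div_iff₀ (by positivity)]
      calc √(N : ℝ) * Real.log N ^ U ≤ √(N : ℝ) * (2 ^ U * (U.factorial : ℝ) * √N) := by
            gcongr
            exact log_pow_le U N (by omega)
        _ = 2 ^ U * (U.factorial : ℝ) * (√(N : ℝ) * √N) := by ring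
        _ = _ := by rw [Real.mul_self_sqrt hN0.le]
    calc _ ≤ B * t := htriv
      _ ≤ B * (2 ^ U * (U.factorial : ℝ) * (N / Real.log N ^ U)) :=
          mul_le_mul_of_nonneg_left (h1.trans h2) hB0
      _ = B * (2 ^ U * (U.factorial : ℝ)) * (N / Real.log N ^ U) := by ring
      _ ≤ _ := by
          apply mul_le_mul_of_nonneg_right _ hpos1.le
          have : 0 ≤ 2 ^ U * C U := by positivity
          linarith
  · push Not at hc1
    have ht2 : 2 ≤ t := by nlinarith
    have ht2r : (2 : ℝ) ≤ t := by exact_mod_cast ht2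
    have htN : (t : ℝ) ≤ N := by exact_mod_cast ht
    have hlt : Real.log N ≤ 2 * Real.log t := by
      have : Real.log N ≤ Real.log ((t : ℝ) * t) := by
        apply Real.log_le_log hN0
        exact_mod_cast hc1.le
      rw [Real.log_mul (by positivity) (by positivity)] at this
      linarith
    have hlt0 : 0 < Real.log t := Real.log_pos (by linarith)
    have h4 : (t : ℝ) / Real.log t ^ U ≤ 2 ^ U * (N / Real.log N ^ U) := by
      rw [mul_div_assoc', div_le_div_iff₀ (by positivity) (by positivity)]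
      calc (t : ℝ) * Real.log N ^ U ≤ N * (2 * Real.log t) ^ U := by gcongr
        _ = 2 ^ U * N * Real.log t ^ U := by rw [mul_pow]; ring
    calc _ ≤ C U * (t / Real.log t ^ U) := hC U t ht2 θ
      _ ≤ C U * (2 ^ U * (N / Real.log N ^ U)) := mul_le_mul_of_nonneg_left h4 hC0
      _ = 2 ^ U * C U * (N / Real.log N ^ U) := by ring
      _ ≤ _ := by
          apply mul_le_mul_of_nonneg_right _ hpos1.le
          have : 0 ≤ B * (2 ^ U * (U.factorial : ℝ)) := by positivity
          linarith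

section

variable {X : Type*} [TopologicalSpace X] [CompactSpace X] (T : X → X)

/-- the orbits of `f` have their spectrum in one thin set -/
def ThinFun (f : C(X, ℂ)) : Prop :=
  ∃ (K : Set UnitAddCircle) (B : ℝ), Thin K ∧ ∀ x, ∃ a : ℤ → ℂ, (∀ n, ‖a n‖ ≤ B) ∧
    (∀ n : ℕ, 1 ≤ n → a n = f (T^[n] x)) ∧ SpecIn K a

lemma specIn_star' {K : Set UnitAddCircle} {a : ℤ → ℂ} (h : SpecIn K a) :
    SpecIn {η | -η ∈ K} (fun n => star (a n)) := specIn_star h

lemma ThinFun.star {f : C(X, ℂ)} (h : ThinFun T f) : ThinFun T (star f) := by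
  obtain ⟨K, B, hK, h⟩ := h
  refine ⟨_, B, thin_neg hK, fun x => ?_⟩
  obtain ⟨a, h1, h2, h3⟩ := h x
  refine ⟨fun n => Star.star (a n), fun n => by rw [norm_star]; exact h1 n, fun n hn => ?_,
    specIn_star' h3⟩
  show Star.star (a n) = Star.star (f (T^[n] x))
  rw [h2 n hn]

/-- multipliers of the class `Mob`, uniformly in the point -/
def multD : Subalgebra ℂ C(X, ℂ) where
  carrier := {f | ∀ C : ℕ → ℝ, ∃ D : ℕ → ℝ, ∀ (x : X) (y : ℕ → ℂ), Mob C y →
    Mob D (fun n => y n * f (T^[n] x))}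
  add_mem' := by
    rintro f g hf hg C
    obtain ⟨D1, h1⟩ := hf C
    obtain ⟨D2, h2⟩ := hg C
    refine ⟨fun U => D1 U + D2 U, fun x y hy => ?_⟩
    have := (h1 x y hy).add (h2 x y hy)
    simpa only [ContinuousMap.add_apply, mul_add] using this
  mul_mem' := by
    rintro f g hf hg C
    obtain ⟨D1, h1⟩ := hf C
    obtain ⟨D2, h2⟩ := hg D1
    refine ⟨D2, fun x y hy => ?_⟩
    have := h2 x _ (h1 x y hy)
    simpa only [ContinuousMap.mul_apply, mul_assoc] using this
  algebraMap_mem' := by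
    intro c C
    refine ⟨fun U => ‖c‖ * C U, fun x y hy => ?_⟩
    have := hy.smul c
    refine this.congr fun n _ => ?_
    show c • y n = y n * c
    rw [smul_eq_mul, mul_comm]

lemma mem_multD {f : C(X, ℂ)} (h : ThinFun T f) : f ∈ multD T := by
  obtain ⟨K, B, ⟨Ck, Ak, hT⟩, h⟩ := h
  intro C
  refine ⟨fun U => 300 * Ck * B * C (U + Ak), fun x y hy => ?_⟩
  obtain ⟨a, h1, h2, h3⟩ := h x
  have := Mob.step (ContinuousLinearMap.mul ℂ ℂ) (fun u v => norm_mul_le _ _) h1 h3 hT hy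
  refine this.congr fun n hn => ?_
  show y n * a n = _
  rw [h2 n hn]

lemma adjoin_le_multD {S : Set C(X, ℂ)} (hS : ∀ f ∈ S, ThinFun T f) {f : C(X, ℂ)}
    (hf : f ∈ StarAlgebra.adjoin ℂ S) : f ∈ multD T := by
  have h : Algebra.adjoin ℂ (S ∪ star S) ≤ multD T := by
    rw [Algebra.adjoin_le_iff]
    rintro g (hg | hg)
    · exact mem_multD T (hS g hg)
    · have := (hS _ hg).star
      rw [star_star] at this
      exact mem_multD T this
  exact h hf

/-- strong twisted bounds, uniform in the point -/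
def StrongFun (g : C(X, ℂ)) : Prop :=
  ∀ U : ℕ, ∃ C : ℝ, ∀ N : ℕ, 2 ≤ N → ∀ (x : X) (θ : UnitAddCircle),
    ‖∑ n ∈ Icc 1 N, (((ArithmeticFunction.moebius n : ℤ) : ℂ) * fourier n θ) • g (T^[n] x)‖ ≤
      C * (N / Real.log N ^ U)

lemma StrongFun.mob {g : C(X, ℂ)} (h : StrongFun T g) :
    ∃ C : ℕ → ℝ, ∀ x, Mob C (fun n => g (T^[n] x)) := by
  choose C hC using h
  exact ⟨_, fun x => mob_of_strong (B := ‖g‖) (fun n _ => g.norm_coe_le_norm _)
    (fun U N hN θ => hC U N hN x θ)⟩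

lemma strong_of_mob {g : C(X, ℂ)} (h : ∃ C : ℕ → ℝ, ∀ x, Mob C (fun n => g (T^[n] x))) :
    StrongFun T g := by
  obtain ⟨C, hC⟩ := h
  exact fun U => ⟨C U, fun N hN x θ => hC x U N hN N le_rfl θ⟩

lemma strong_one : StrongFun T (1 : C(X, ℂ)) := by
  obtain ⟨C₀, -, hC₀⟩ := base
  exact strong_of_mob T ⟨_, fun x => Mob.const hC₀ (1 : ℂ)⟩

/-- the functions with strong bounds form a module over the algebra generated by the functions of
thin spectrum -/
theorem StrongFun.mul {S : Set C(X, ℂ)} (hS : ∀ f ∈ S, ThinFun T f) {g p : C(X, ℂ)}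
    (hg : StrongFun T g) (hp : p ∈ StarAlgebra.adjoin ℂ S) : StrongFun T (g * p) := by
  obtain ⟨C, hC⟩ := hg.mob
  obtain ⟨D, hD⟩ := adjoin_le_multD T hS hp C
  exact strong_of_mob T ⟨D, fun x => hD x _ (hC x)⟩

theorem StrongFun.add {g h : C(X, ℂ)} (hg : StrongFun T g) (hh : StrongFun T h) :
    StrongFun T (g + h) := by
  obtain ⟨C, hC⟩ := hg.mob
  obtain ⟨D, hD⟩ := hh.mob
  exact strong_of_mob T ⟨_, fun x => (hC x).add (hD x)⟩

theorem StrongFun.smul {g : C(X, ℂ)} (hg : StrongFun T g) (c : ℂ) : StrongFun T (c • g) := by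
  obtain ⟨C, hC⟩ := hg.mob
  exact strong_of_mob T ⟨_, fun x => (hC x).smul c⟩

theorem strong_span {S G : Set C(X, ℂ)} (hS : ∀ f ∈ S, ThinFun T f)
    (hG : ∀ g ∈ G, StrongFun T g) {f : C(X, ℂ)}
    (hf : f ∈ Submodule.span ℂ {h : C(X, ℂ) | ∃ g ∈ G, ∃ p ∈ StarAlgebra.adjoin ℂ S, h = g * p}) :
    StrongFun T f := by
  induction hf using Submodule.span_induction with
  | mem h hh =>
    obtain ⟨g, hg, p, hp, rfl⟩ := hh
    exact (hG g hg).mul T hS hp
  | zero => exact strong_of_mob T ⟨_, fun x => Mob.zero⟩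
  | add h k _ _ h1 h2 => exact h1.add T h2
  | smul c h _ h1 => exact h1.smul T c

/-- density -/
theorem unif_of_dense {D : Set C(X, ℂ)} (hD : ∀ f ∈ D, StrongFun T f) (hd : Dense D)
    (f : C(X, ℂ)) {ε : ℝ} (hε : 0 < ε) : ∃ N₀ : ℕ, ∀ N ≥ N₀, ∀ (x : X) (θ : UnitAddCircle),
      ‖∑ n ∈ Icc 1 N, (((ArithmeticFunction.moebius n : ℤ) : ℂ) * fourier n θ) • f (T^[n] x)‖ ≤
        ε * N := by
  obtain ⟨z, hz, hzx⟩ := Metric.mem_closure_iff.1 (hd f) (ε / 2) (by positivity)
  obtain ⟨C, hC⟩ := hD z hz 1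
  have hlim : Tendsto (fun N : ℕ => C / Real.log N ^ 1) atTop (𝓝 0) := by
    simp only [pow_one]
    exact Tendsto.div_atTop tendsto_const_nhds
      (Real.tendsto_log_atTop.comp tendsto_natCast_atTop_atTop)
  obtain ⟨N1, h1⟩ := eventually_atTop.1 (hlim.eventually (gt_mem_nhds (by positivity : 0 < ε / 2)))
  refine ⟨max N1 2, fun N hN x θ => ?_⟩
  have hN1 : N1 ≤ N := le_trans (le_max_left _ _) hN
  have hN2 : 2 ≤ N := le_trans (le_max_right _ _) hN
  have hN0 : (0 : ℝ) < N := by positivity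
  have e : ∑ n ∈ Icc 1 N, (((ArithmeticFunction.moebius n : ℤ) : ℂ) * fourier n θ) • f (T^[n] x) =
      ∑ n ∈ Icc 1 N, (((ArithmeticFunction.moebius n : ℤ) : ℂ) * fourier n θ) •
        (f - z) (T^[n] x) +
      ∑ n ∈ Icc 1 N, (((ArithmeticFunction.moebius n : ℤ) : ℂ) * fourier n θ) • z (T^[n] x) := by
    rw [← Finset.sum_add_distrib]
    refine Finset.sum_congr rfl fun n _ => ?_
    rw [← smul_add, ContinuousMap.sub_apply, sub_add_cancel]
  rw [e]
  refine (norm_add_le _ _).trans ?_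
  have b1 : ‖∑ n ∈ Icc 1 N, (((ArithmeticFunction.moebius n : ℤ) : ℂ) * fourier n θ) •
      (f - z) (T^[n] x)‖ ≤ ε / 2 * N := by
    refine (norm_sum_le _ _).trans ?_
    calc _ ≤ ∑ n ∈ Icc 1 N, (ε / 2) := by
          refine sum_le_sum fun n _ => ?_
          rw [norm_smul, norm_mul, norm_fourier_apply, mul_one, Complex.norm_intCast]
          have h3 : |((ArithmeticFunction.moebius n : ℤ) : ℝ)| ≤ 1 := by
            exact_mod_cast ArithmeticFunction.abs_moebius_le_one
          have h4 : ‖(f - z) (T^[n] x)‖ ≤ ε / 2 := by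
            refine ((f - z).norm_coe_le_norm _).trans ?_
            rw [← dist_eq_norm]; exact hzx.le
          calc _ ≤ 1 * (ε / 2) := mul_le_mul h3 h4 (norm_nonneg _) zero_le_one
            _ = _ := one_mul _
      _ = _ := by simp [mul_comm]
  have b2 := hC N hN2 x θ
  have b3 : C * (N / Real.log N ^ 1) ≤ ε / 2 * N := by
    have := (h1 N hN1).le
    calc C * (N / Real.log N ^ 1) = C / Real.log N ^ 1 * N := by ring
      _ ≤ ε / 2 * N := mul_le_mul_of_nonneg_right this hN0.le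
  linarith

end

end Pool.Agent.TH327.Thin
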