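import Mathlib

/-! The Fejer-type weights: nonnegative, summable, close to one near the origin, with transform
supported in a small interval. -/

set_option autoImplicit false

open Filter Topology MeasureTheory Set

namespace Pool.Agent.TH327.Thin

/-- the normalised triangle function on the circle -/
noncomputable def tri (δ : ℝ) : C(UnitAddCircle, ℂ) :=
  ⟨fun η => ((max 0 (1 - ‖η‖ / δ) / δ : ℝ) : ℂ), by fun_prop⟩

lemma tri_apply (δ : ℝ) (η : UnitAddCircle) : tri δ η = ((max 0 (1 - ‖η‖ / δ) / δ : ℝ) : ℂ) := rfl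

/-- the weights -/
noncomputable def W (δ : ℝ) (n : ℤ) : ℝ :=
  ∫ x in (0 : ℝ)..δ, 2 * Real.cos (2 * Real.pi * n * x) * ((1 - x / δ) / δ)

lemma fourier_coe (n : ℤ) (x : ℝ) :
    (fourier n (x : UnitAddCircle) : ℂ) = Complex.exp (2 * Real.pi * Complex.I * n * x) := by
  rw [fourier_coe_apply]
  simp

lemma fourier_add_neg (n : ℤ) (x : ℝ) :
    (fourier n (x : UnitAddCircle) : ℂ) + fourier n ((-x : ℝ) : UnitAddCircle) =
      ((2 * Real.cos (2 * Real.pi * n * x) : ℝ) : ℂ) := by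
  rw [fourier_coe, fourier_coe]
  push_cast
  rw [Complex.two_cos]
  congr 1 <;> congr 1 <;> ring

lemma coeff_tri (δ : ℝ) (h0 : 0 < δ) (h1 : δ ≤ 1 / 2) (n : ℤ) :
    fourierCoeff (tri δ) n = (W δ n : ℂ) := by
  rw [fourierCoeff_eq_intervalIntegral (tri δ) n (-(1 / 2))]
  have hnorm : ∀ x : ℝ, |x| ≤ 1 / 2 → ‖(x : UnitAddCircle)‖ = |x| := by
    intro x hx
    rw [AddCircle.norm_coe_eq_abs_iff _ one_ne_zero]
    simpa using hx
  set g : ℝ → ℂ := fun x => (fourier (-n) (x : UnitAddCircle) : ℂ) • tri δ (x : UnitAddCircle)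
    with hg
  have hgc : Continuous g := by
    have h1 : Continuous fun x : ℝ => (fourier (-n) (x : UnitAddCircle) : ℂ) :=
      (map_continuous (fourier (-n))).comp (AddCircle.continuous_mk' 1)
    have h2 : Continuous fun x : ℝ => tri δ (x : UnitAddCircle) :=
      (map_continuous (tri δ)).comp (AddCircle.continuous_mk' 1)
    exact h1.smul h2
  have e1 : (∫ x in (-(1 / 2) : ℝ)..(-(1 / 2) + 1), g x) =
      (∫ x in (0 : ℝ)..(1 / 2), g x + g (-x)) := by
    have hc2 : Continuous fun x => g (-x) := hgc.comp continuous_neg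
    rw [intervalIntegral.integral_add (hgc.intervalIntegrable _ _)
      (hc2.intervalIntegrable _ _), intervalIntegral.integral_comp_neg,
      neg_zero, add_comm (∫ x in (0 : ℝ)..(1 / 2), g x),
      intervalIntegral.integral_add_adjacent_intervals (hgc.intervalIntegrable _ _)
      (hgc.intervalIntegrable _ _)]
    norm_num
  have e2 : (∫ x in (0 : ℝ)..(1 / 2), g x + g (-x)) =
      (∫ x in (0 : ℝ)..δ, g x + g (-x)) := by
    have hc : Continuous fun x => g x + g (-x) := hgc.add (hgc.comp continuous_neg)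
    rw [← intervalIntegral.integral_add_adjacent_intervals (hc.intervalIntegrable 0 δ)
      (hc.intervalIntegrable δ (1 / 2))]
    have : (∫ x in δ..(1 / 2), g x + g (-x)) = 0 := by
      rw [intervalIntegral.integral_congr (g := fun _ => (0 : ℂ))]
      · simp
      · intro x hx
        rw [uIcc_of_le h1] at hx
        have hx0 : 0 ≤ x := h0.le.trans hx.1
        have a1 : ‖(x : UnitAddCircle)‖ = x := by
          rw [hnorm x (by rw [abs_of_nonneg hx0]; exact hx.2), abs_of_nonneg hx0]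
        have a2 : ‖((-x : ℝ) : UnitAddCircle)‖ = x := by
          rw [AddCircle.coe_neg, norm_neg, a1]
        have a3 : max 0 (1 - x / δ) = 0 := by
          apply max_eq_left
          have : 1 ≤ x / δ := by rw [le_div_iff₀ h0]; linarith [hx.1]
          linarith
        simp only [hg, tri_apply, a1, a2, a3]
        simp
    rw [this, add_zero]
  show (1 / 1 : ℝ) • (∫ x in (-(1 / 2) : ℝ)..(-(1 / 2) + 1), g x) = _
  rw [e1, e2, W, ← intervalIntegral.integral_ofReal]
  rw [div_one, one_smul]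
  apply intervalIntegral.integral_congr
  intro x hx
  rw [uIcc_of_le h0.le] at hx
  have a1 : ‖(x : UnitAddCircle)‖ = x := by
    rw [hnorm x (by rw [abs_of_nonneg hx.1]; exact hx.2.trans h1), abs_of_nonneg hx.1]
  have a2 : ‖((-x : ℝ) : UnitAddCircle)‖ = x := by
    rw [AddCircle.coe_neg, norm_neg, a1]
  have a3 : max 0 (1 - x / δ) = 1 - x / δ := by
    apply max_eq_right
    have : x / δ ≤ 1 := by rw [div_le_one h0]; exact hx.2
    linarith
  show g x + g (-x) = _
  simp only [hg, tri_apply, a1, a2, a3, smul_eq_mul]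
  rw [← add_mul, fourier_add_neg]
  push_cast
  rw [mul_neg, neg_mul, Complex.cos_neg]

lemma W_zero (δ : ℝ) (h0 : 0 < δ) : W δ 0 = 1 := by
  have : W δ 0 = ∫ x in (0 : ℝ)..δ, (2 / δ - 2 / δ ^ 2 * x) := by
    unfold W
    apply intervalIntegral.integral_congr
    intro x _
    simp only [Int.cast_zero, mul_zero, zero_mul, Real.cos_zero]
    field_simp
  have hc2 : Continuous fun x : ℝ => 2 / δ ^ 2 * x := by fun_prop
  rw [this, intervalIntegral.integral_sub (by simp) (hc2.intervalIntegrable _ _),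
    intervalIntegral.integral_const_mul]
  simp
  field_simp
  norm_num

lemma W_formula (δ : ℝ) (h0 : 0 < δ) (n : ℤ) (hn : n ≠ 0) :
    W δ n = 2 * (1 - Real.cos (2 * Real.pi * n * δ)) / (2 * Real.pi * n * δ) ^ 2 := by
  set ω : ℝ := 2 * Real.pi * n with hω
  have hω0 : ω ≠ 0 := by
    rw [hω]
    have : (n : ℝ) ≠ 0 := by exact_mod_cast hn
    positivity
  have hδ : δ ≠ 0 := h0.ne'
  have key : (∫ x in (0 : ℝ)..δ, 2 * Real.cos (ω * x) * ((1 - x / δ) / δ)) =
      (2 / δ * ((1 - δ / δ) * (Real.sin (ω * δ) / ω) - Real.cos (ω * δ) / (δ * ω ^ 2))) -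
      (2 / δ * ((1 - 0 / δ) * (Real.sin (ω * 0) / ω) - Real.cos (ω * 0) / (δ * ω ^ 2))) := by
    apply intervalIntegral.integral_eq_sub_of_hasDerivAt
      (f := fun x => 2 / δ * ((1 - x / δ) * (Real.sin (ω * x) / ω) - Real.cos (ω * x) / (δ * ω ^ 2)))
    · intro x _
      have d0 : HasDerivAt (fun x : ℝ => ω * x) ω x := by
        simpa using (hasDerivAt_id x).const_mul ω
      have d1 : HasDerivAt (fun x : ℝ => Real.sin (ω * x)) (Real.cos (ω * x) * ω) x := d0.sin
      have d2 : HasDerivAt (fun x : ℝ => Real.cos (ω * x)) (-Real.sin (ω * x) * ω) x := d0.cos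
      have d3 : HasDerivAt (fun x : ℝ => 1 - x / δ) (-(1 / δ)) x := by
        simpa using ((hasDerivAt_id x).div_const δ).const_sub 1
      have := ((d3.mul (d1.div_const ω)).sub (d2.div_const (δ * ω ^ 2))).const_mul (2 / δ)
      refine this.congr_deriv ?_
      field_simp
      ring
    · apply Continuous.intervalIntegrable
      fun_prop
  unfold W
  rw [← hω]
  rw [key]
  simp only [div_self hδ, mul_zero, Real.sin_zero, Real.cos_zero]
  field_simp
  ring

lemma W_nonneg (δ : ℝ) (h0 : 0 < δ) (n : ℤ) : 0 ≤ W δ n := by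
  rcases eq_or_ne n 0 with rfl | hn
  · rw [W_zero δ h0]; norm_num
  · rw [W_formula δ h0 n hn]
    have := Real.cos_le_one (2 * Real.pi * n * δ)
    exact div_nonneg (by linarith) (sq_nonneg _)

lemma W_lower (δ : ℝ) (h0 : 0 < δ) (n : ℤ) (hn : |(n : ℝ)| * δ ≤ 1 / 2) : 2 / 5 ≤ W δ n := by
  rcases eq_or_ne n 0 with rfl | h
  · rw [W_zero δ h0]; norm_num
  · rw [W_formula δ h0 n h]
    have hz : |2 * Real.pi * n * δ| ≤ Real.pi := by
      rw [abs_mul, abs_mul, abs_of_nonneg (by positivity : (0 : ℝ) ≤ 2 * Real.pi),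
        abs_of_pos h0]
      nlinarith [Real.pi_pos]
    have h2 := Real.cos_le_one_sub_mul_cos_sq hz
    have hz0 : (2 * Real.pi * n * δ) ≠ 0 := by
      have : (n : ℝ) ≠ 0 := by exact_mod_cast h
      positivity
    have hz2 : 0 < (2 * Real.pi * n * δ) ^ 2 := by positivity
    rw [le_div_iff₀ hz2]
    have h3 : (2 / 5 : ℝ) ≤ 4 / Real.pi ^ 2 := by
      rw [div_le_div_iff₀ (by norm_num) (by positivity)]
      nlinarith [Real.pi_lt_d2, Real.pi_pos]
    have h4 : 2 / 5 * (2 * Real.pi * n * δ) ^ 2 ≤ 4 / Real.pi ^ 2 * (2 * Real.pi * n * δ) ^ 2 :=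
      mul_le_mul_of_nonneg_right h3 hz2.le
    have h5 : 4 / Real.pi ^ 2 * (2 * Real.pi * n * δ) ^ 2 =
      2 * (2 / Real.pi ^ 2 * (2 * Real.pi * n * δ) ^ 2) := by ring
    linarith

lemma W_diff (δ : ℝ) (h0 : 0 < δ) (n : ℤ) : |W δ (n + 1) - W δ n| ≤ 4 * Real.pi * δ := by
  have c1 : ∀ m : ℤ, Continuous fun x : ℝ =>
      2 * Real.cos (2 * Real.pi * m * x) * ((1 - x / δ) / δ) := fun m => by fun_prop
  unfold W
  rw [← intervalIntegral.integral_sub ((c1 _).intervalIntegrable _ _)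
    ((c1 _).intervalIntegrable _ _)]
  have h := intervalIntegral.norm_integral_le_of_norm_le_const (a := 0) (b := δ)
    (C := 4 * Real.pi) (f := fun x : ℝ =>
      2 * Real.cos (2 * Real.pi * ((n + 1 : ℤ) : ℝ) * x) * ((1 - x / δ) / δ) -
      2 * Real.cos (2 * Real.pi * (n : ℝ) * x) * ((1 - x / δ) / δ)) ?_
  · rw [Real.norm_eq_abs, sub_zero, abs_of_pos h0] at h
    exact h
  · intro x hx
    rw [uIoc_of_le h0.le] at hx
    have hx1 : x / δ ≤ 1 := by rw [div_le_one h0]; exact hx.2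
    have hx0 : 0 ≤ x / δ := div_nonneg hx.1.le h0.le
    have e : 2 * Real.cos (2 * Real.pi * ((n + 1 : ℤ) : ℝ) * x) * ((1 - x / δ) / δ) -
      2 * Real.cos (2 * Real.pi * (n : ℝ) * x) * ((1 - x / δ) / δ) =
      2 * (Real.cos (2 * Real.pi * ((n + 1 : ℤ) : ℝ) * x) - Real.cos (2 * Real.pi * (n : ℝ) * x))
        * ((1 - x / δ) / δ) := by ring
    rw [e, Real.norm_eq_abs, abs_mul, abs_mul, abs_two]
    have b1 : |Real.cos (2 * Real.pi * ((n + 1 : ℤ) : ℝ) * x) - Real.cos (2 * Real.pi * (n : ℝ) * x)|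
        ≤ 2 * Real.pi * δ := by
      have := Real.abs_cos_sub_cos_le (2 * Real.pi * ((n + 1 : ℤ) : ℝ) * x)
        (2 * Real.pi * (n : ℝ) * x)
      refine this.trans ?_
      have e2 : 2 * Real.pi * ((n + 1 : ℤ) : ℝ) * x - 2 * Real.pi * (n : ℝ) * x =
        2 * Real.pi * x := by push_cast; ring
      rw [e2, abs_of_nonneg (by have := hx.1.le; positivity)]
      have := hx.2
      nlinarith [Real.pi_pos]
    have b2 : |(1 - x / δ) / δ| ≤ 1 / δ := by
      rw [abs_of_nonneg (div_nonneg (by linarith) h0.le)]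
      exact div_le_div_of_nonneg_right (by linarith) h0.le
    calc 2 * |Real.cos (2 * Real.pi * ((n + 1 : ℤ) : ℝ) * x) - Real.cos (2 * Real.pi * (n : ℝ) * x)|
          * |(1 - x / δ) / δ| ≤ 2 * (2 * Real.pi * δ) * (1 / δ) := by gcongr
      _ = 4 * Real.pi := by field_simp; norm_num

lemma summable_W (δ : ℝ) (h0 : 0 < δ) : Summable (W δ) := by
  have h1 : Summable fun n : ℤ => (4 / (2 * Real.pi * δ) ^ 2) * (1 / (n : ℝ) ^ 2) :=
    (Real.summable_one_div_int_pow.2 (by norm_num)).mul_left _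
  have h2 : Summable fun n : ℤ => (4 / (2 * Real.pi * δ) ^ 2) * (1 / (n : ℝ) ^ 2) +
      (Pi.single (0 : ℤ) (1 : ℝ) : ℤ → ℝ) n :=
    h1.add (hasSum_pi_single 0 1).summable
  refine Summable.of_nonneg_of_le (fun n => W_nonneg δ h0 n) (fun n => ?_) h2
  rcases eq_or_ne n 0 with rfl | hn
  · rw [W_zero δ h0]; simp
  · rw [W_formula δ h0 n hn, Pi.single_eq_of_ne hn, add_zero]
    have hn0 : (n : ℝ) ≠ 0 := by exact_mod_cast hn
    have := Real.neg_one_le_cos (2 * Real.pi * n * δ)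
    calc 2 * (1 - Real.cos (2 * Real.pi * n * δ)) / (2 * Real.pi * n * δ) ^ 2
        ≤ 4 / (2 * Real.pi * n * δ) ^ 2 := by
          apply div_le_div_of_nonneg_right _ (sq_nonneg _)
          linarith
      _ = _ := by field_simp

lemma hasSum_W (δ : ℝ) (h0 : 0 < δ) (h1 : δ ≤ 1 / 2) (η : UnitAddCircle) :
    HasSum (fun n : ℤ => (W δ n : ℂ) * fourier n η) (tri δ η) := by
  have hs : Summable (fourierCoeff (tri δ)) := by
    have : fourierCoeff (tri δ) = fun n => (W δ n : ℂ) := by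
      funext n; exact coeff_tri δ h0 h1 n
    rw [this]
    exact Complex.ofRealCLM.summable (summable_W δ h0)
  have := has_pointwise_sum_fourier_series_of_summable hs η
  simpa [coeff_tri δ h0 h1, smul_eq_mul] using this

lemma tsum_W (δ : ℝ) (h0 : 0 < δ) (h1 : δ ≤ 1 / 2) : ∑' n, W δ n = 1 / δ := by
  have h := hasSum_W δ h0 h1 0
  have e : (fun n : ℤ => (W δ n : ℂ) * fourier n (0 : UnitAddCircle)) = fun n => (W δ n : ℂ) := by
    funext n; simp
  rw [e] at h
  have h2 : HasSum (W δ) (1 / δ) := by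
    rw [← Complex.hasSum_ofReal]
    convert h using 1
    rw [tri_apply]
    simp
  exact h2.tsum_eq

lemma tri_eq_zero (δ : ℝ) (h0 : 0 < δ) (η : UnitAddCircle) (h : δ ≤ ‖η‖) : tri δ η = 0 := by
  rw [tri_apply]
  have a3 : max 0 (1 - ‖η‖ / δ) = 0 := by
    apply max_eq_left
    have : 1 ≤ ‖η‖ / δ := by rw [le_div_iff₀ h0]; linarith
    linarith
  rw [a3]; simp

end Pool.Agent.TH327.Thin
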