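import Pool.Agent.TH327.Thin.Transfer

/-! The passage from linear exponential sums to sums twisted by a sequence with thin spectrum. -/

set_option autoImplicit false

open Filter Topology MeasureTheory Finset

namespace Pool.Agent.TH327.Thin

/-- covering numbers at most a power of the logarithm of the scale -/
def Thin (K : Set UnitAddCircle) : Prop :=
  ∃ C A : ℕ, ∀ N : ℕ, 2 ≤ N → ∃ S : Finset UnitAddCircle, (S.card : ℝ) ≤ C * Real.log N ^ A ∧
    ∀ ζ ∈ K, ∃ s ∈ S, ‖ζ - s‖ ≤ 1 / N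

section abel

variable {Z : Type*} [NormedAddCommGroup Z] [NormedSpace ℂ Z]

lemma abel_id (d : ℕ → ℂ) (z : ℕ → Z) (t : ℕ) :
    ∑ n ∈ Icc 1 (t + 1), d n • z n = d (t + 1) • (∑ n ∈ Icc 1 (t + 1), z n) -
      ∑ n ∈ Icc 1 t, (d (n + 1) - d n) • ∑ k ∈ Icc 1 n, z k := by
  induction t with
  | zero => simp
  | succ t ih =>
    rw [sum_Icc_succ_top (by omega), ih, sum_Icc_succ_top (by omega : 1 ≤ t + 1 + 1) z,
      sum_Icc_succ_top (by omega : 1 ≤ t + 1) (fun n => (d (n + 1) - d n) • ∑ k ∈ Icc 1 n, z k)]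
    rw [smul_add, sub_smul]
    abel

lemma abel_bound (d : ℕ → ℂ) (z : ℕ → Z) (N : ℕ) (P V D : ℝ) (hP : 0 ≤ P) (hV : 0 ≤ V)
    (hz : ∀ t ≤ N, ‖∑ n ∈ Icc 1 t, z n‖ ≤ P)
    (hd : ∀ n, 1 ≤ n → n ≤ N → ‖d n‖ ≤ D)
    (hv : ∀ n, 1 ≤ n → n + 1 ≤ N → ‖d (n + 1) - d n‖ ≤ V) (hD : 0 ≤ D) :
    ∀ t ≤ N, ‖∑ n ∈ Icc 1 t, d n • z n‖ ≤ (D + N * V) * P := by
  intro t ht
  rcases t with _ | t
  · simp only [zero_lt_one, Icc_eq_empty_of_lt, sum_empty, norm_zero]
    positivity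
  · rw [abel_id]
    refine (norm_sub_le _ _).trans ?_
    have h1 : ‖d (t + 1) • ∑ n ∈ Icc 1 (t + 1), z n‖ ≤ D * P := by
      rw [norm_smul]
      exact mul_le_mul (hd _ (by omega) ht) (hz _ ht) (norm_nonneg _) hD
    have h2 : ‖∑ n ∈ Icc 1 t, (d (n + 1) - d n) • ∑ k ∈ Icc 1 n, z k‖ ≤ N * V * P := by
      refine (norm_sum_le _ _).trans ?_
      calc ∑ n ∈ Icc 1 t, ‖(d (n + 1) - d n) • ∑ k ∈ Icc 1 n, z k‖
          ≤ ∑ n ∈ Icc 1 t, V * P := by
            refine sum_le_sum fun n hn => ?_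
            rw [mem_Icc] at hn
            rw [norm_smul]
            exact mul_le_mul (hv n hn.1 (by omega)) (hz n (by omega)) (norm_nonneg _) hV
        _ = t * (V * P) := by simp
        _ ≤ N * (V * P) := by
            have : (t : ℝ) ≤ N := by exact_mod_cast (by omega : t ≤ N)
            gcongr
        _ = N * V * P := by ring
    calc _ ≤ D * P + N * V * P := add_le_add h1 h2
      _ = _ := by ring

end abel

variable {Y E Z : Type*} [NormedAddCommGroup Y] [NormedSpace ℂ Y]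
  [NormedAddCommGroup E] [NormedSpace ℂ E] [CompleteSpace E]
  [NormedAddCommGroup Z] [NormedSpace ℂ Z] [CompleteSpace Z]

theorem weighted_bound (L : Y →L[ℂ] E →L[ℂ] Z) (hL : ∀ u v, ‖L u v‖ ≤ ‖u‖ * ‖v‖) {a : ℤ → E}
    {B : ℝ} (hB : ∀ n, ‖a n‖ ≤ B) {K : Set UnitAddCircle} (hK : SpecIn K a)
    {N : ℕ} (hN : 2 ≤ N) (S : Finset UnitAddCircle) (hS : ∀ ζ ∈ K, ∃ s ∈ S, ‖ζ - s‖ ≤ 1 / N)
    (c : ℕ → ℂ) (y : ℕ → Y) (M : ℝ)
    (t : ℕ) (hM : ∀ η : UnitAddCircle, ‖∑ n ∈ Icc 1 t, (c n * fourier n η) • y n‖ ≤ M) :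
    ‖∑ n ∈ Icc 1 t, c n • L (y n) ((W (1 / (2 * N)) n : ℂ) • a n)‖ ≤ 6 * B * M * S.card := by
  have hN0 : (2 : ℝ) ≤ N := by exact_mod_cast hN
  set δ : ℝ := 1 / (2 * N) with hδ
  have h0 : 0 < δ := by positivity
  have h1 : δ ≤ 1 / 2 := by
    rw [hδ, div_le_div_iff₀ (by positivity) (by norm_num)]
    linarith
  have hB0 : 0 ≤ B := (norm_nonneg _).trans (hB 0)
  have hM0 : 0 ≤ M := (norm_nonneg _).trans (hM 0)
  have hFc := FT_cont hB h0
  set T : Set UnitAddCircle := ⋃ s ∈ S, Metric.closedBall s (1 / N + δ) with hT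
  have hTm : MeasurableSet T := Finset.measurableSet_biUnion S fun s _ =>
    Metric.isClosed_closedBall.measurableSet
  have hFz : ∀ η, η ∉ T → FT a δ η = 0 := by
    intro η hη
    apply FT_zero hK h0 h1
    intro ζ hζ
    by_contra hc
    push Not at hc
    apply hη
    obtain ⟨s, hs, hd⟩ := hS ζ hζ
    rw [hT]
    refine Set.mem_biUnion hs ?_
    rw [mem_closedBall_iff_norm]
    calc ‖η - s‖ = ‖(ζ - s) - (ζ - η)‖ := by congr 1; abel
      _ ≤ ‖ζ - s‖ + ‖ζ - η‖ := norm_sub_le _ _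
      _ ≤ 1 / N + δ := add_le_add hd hc
  have hTv : (volume : Measure UnitAddCircle).real T ≤ S.card * (3 / N) := by
    refine (measureReal_biUnion_finset_le _ _).trans ?_
    calc ∑ s ∈ S, (volume : Measure UnitAddCircle).real (Metric.closedBall s (1 / N + δ))
        ≤ ∑ s ∈ S, (3 / N : ℝ) := by
          refine sum_le_sum fun s _ => ?_
          rw [Measure.real, AddCircle.volume_closedBall, ENNReal.toReal_ofReal (by positivity)]
          refine (min_le_right _ _).trans (le_of_eq ?_)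
          rw [hδ]; field_simp; norm_num
      _ = _ := by simp
  have hint : ∀ n : ℕ, Integrable (fun η : UnitAddCircle =>
      (fourier (n : ℤ) η : ℂ) • FT a δ η) volume := by
    intro n
    apply Continuous.integrable_of_hasCompactSupport
    · exact (map_continuous (fourier (n : ℤ))).smul hFc
    · exact HasCompactSupport.of_compactSpace _
  have e1 : ∑ n ∈ Icc 1 t, c n • L (y n) ((W δ n : ℂ) • a n) =
      ∫ η : UnitAddCircle, L (∑ n ∈ Icc 1 t, (c n * fourier (n : ℤ) η) • y n) (FT a δ η) := by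
    have e2 : ∀ n : ℕ, c n • L (y n) ((W δ n : ℂ) • a n) =
        ∫ η : UnitAddCircle, (c n • L (y n)) ((fourier (n : ℤ) η : ℂ) • FT a δ η) := by
      intro n
      rw [ContinuousLinearMap.integral_comp_comm _ (hint n), FT_coeff hB h0]
      rfl
    rw [Finset.sum_congr rfl fun n _ => e2 n]
    rw [← integral_finsetSum]
    · refine integral_congr_ae (Filter.Eventually.of_forall fun η => ?_)
      simp only [map_sum, map_smul, _root_.sum_apply, _root_.smul_apply]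
      refine Finset.sum_congr rfl fun n _ => ?_
      rw [smul_smul, mul_comm]
    · intro n _
      exact (c n • L (y n)).integrable_comp (hint n)
  rw [e1]
  have hind : Integrable (T.indicator fun _ => M * (B / δ)) (volume : Measure UnitAddCircle) :=
    (integrable_const _).indicator hTm
  refine (norm_integral_le_of_norm_le hind (Filter.Eventually.of_forall fun η => ?_)).trans ?_
  · by_cases hη : η ∈ T
    · rw [Set.indicator_of_mem hη]
      refine (hL _ _).trans ?_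
      exact mul_le_mul (hM η) (FT_norm hB h0 h1 η) (norm_nonneg _) hM0
    · rw [Set.indicator_of_notMem hη, hFz η hη]
      simp
  · rw [integral_indicator hTm, setIntegral_const, smul_eq_mul]
    calc (volume : Measure UnitAddCircle).real T * (M * (B / δ))
        ≤ (S.card * (3 / N)) * (M * (B / δ)) := by gcongr
      _ = 6 * B * M * S.card := by
          rw [hδ]; field_simp; ring

theorem step_bound (L : Y →L[ℂ] E →L[ℂ] Z) (hL : ∀ u v, ‖L u v‖ ≤ ‖u‖ * ‖v‖) {a : ℤ → E}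
    {B : ℝ} (hB : ∀ n, ‖a n‖ ≤ B) {K : Set UnitAddCircle} (hK : SpecIn K a)
    {N : ℕ} (hN : 2 ≤ N) (S : Finset UnitAddCircle) (hS : ∀ ζ ∈ K, ∃ s ∈ S, ‖ζ - s‖ ≤ 1 / N)
    (c : ℕ → ℂ) (y : ℕ → Y) (M : ℝ)
    (hM : ∀ t ≤ N, ∀ η : UnitAddCircle, ‖∑ n ∈ Icc 1 t, (c n * fourier n η) • y n‖ ≤ M) :
    ∀ t ≤ N, ‖∑ n ∈ Icc 1 t, c n • L (y n) (a n)‖ ≤ 300 * B * M * S.card := by
  intro t ht
  have hN0 : (2 : ℝ) ≤ N := by exact_mod_cast hN
  set δ : ℝ := 1 / (2 * N) with hδ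
  have h0 : 0 < δ := by positivity
  have hB0 : 0 ≤ B := (norm_nonneg _).trans (hB 0)
  have hM0 : 0 ≤ M := (norm_nonneg _).trans (hM 0 (Nat.zero_le _) 0)
  have hWl : ∀ n : ℕ, n ≤ N → 2 / 5 ≤ W δ n := by
    intro n hn
    apply W_lower δ h0
    have : (n : ℝ) ≤ N := by exact_mod_cast hn
    rw [Int.cast_natCast, abs_of_nonneg (Nat.cast_nonneg _), hδ]
    rw [mul_one_div, div_le_div_iff₀ (by positivity) (by norm_num)]
    linarith
  have hz : ∀ t ≤ N, ‖∑ n ∈ Icc 1 t, c n • L (y n) ((W δ n : ℂ) • a n)‖ ≤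
      6 * B * M * S.card := fun t ht =>
    weighted_bound L hL hB hK hN S hS c y M t (hM t ht)
  have hd : ∀ n, 1 ≤ n → n ≤ N → ‖(((W δ n)⁻¹ : ℝ) : ℂ)‖ ≤ 5 / 2 := by
    intro n _ hn
    have := hWl n hn
    rw [Complex.norm_real, Real.norm_eq_abs, abs_of_nonneg (by positivity)]
    rw [inv_le_comm₀ (by linarith) (by norm_num)]
    linarith
  have hv : ∀ n : ℕ, 1 ≤ n → n + 1 ≤ N →
      ‖(((W δ ((n + 1 : ℕ) : ℤ))⁻¹ : ℝ) : ℂ) - (((W δ n)⁻¹ : ℝ) : ℂ)‖ ≤ 40 / N := by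
    intro n _ hn
    have w1 := hWl n (by omega)
    have w2 := hWl (n + 1) hn
    have hd := W_diff δ h0 n
    have p1 : 0 < W δ n := by linarith
    have p2 : 0 < W δ ((n + 1 : ℕ) : ℤ) := by linarith
    rw [← Complex.ofReal_sub, Complex.norm_real, Real.norm_eq_abs, inv_sub_inv p2.ne' p1.ne',
      abs_div, abs_of_pos (mul_pos p2 p1), div_le_iff₀ (mul_pos p2 p1)]
    have e : |W δ n - W δ ((n + 1 : ℕ) : ℤ)| ≤ 4 * Real.pi * δ := by
      rw [abs_sub_comm]
      have : ((n + 1 : ℕ) : ℤ) = (n : ℤ) + 1 := by push_cast; rfl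
      rw [this]
      exact hd
    refine e.trans ?_
    have e2 : (4 : ℝ) / 25 ≤ W δ ((n + 1 : ℕ) : ℤ) * W δ n := by nlinarith
    have e3 : 4 * Real.pi * δ = 2 * Real.pi / N := by rw [hδ]; field_simp; norm_num
    rw [e3]
    calc 2 * Real.pi / N ≤ 6.4 / N := by
          apply div_le_div_of_nonneg_right _ (by positivity)
          linarith [Real.pi_lt_d2]
      _ = 40 / N * (4 / 25) := by ring
      _ ≤ _ := mul_le_mul_of_nonneg_left e2 (by positivity)
  have key := abel_bound (fun n : ℕ => (((W δ n)⁻¹ : ℝ) : ℂ))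
    (fun n : ℕ => c n • L (y n) ((W δ n : ℂ) • a n)) N (6 * B * M * S.card) (40 / N) (5 / 2)
    (by positivity) (by positivity) hz hd hv (by norm_num) t ht
  have e : ∑ n ∈ Icc 1 t, (((W δ n)⁻¹ : ℝ) : ℂ) • c n • L (y n) ((W δ n : ℂ) • a n) =
      ∑ n ∈ Icc 1 t, c n • L (y n) (a n) := by
    refine Finset.sum_congr rfl fun n hn => ?_
    rw [mem_Icc] at hn
    have := hWl n (by omega)
    have hne : (W δ n : ℂ) ≠ 0 := by
      rw [Complex.ofReal_ne_zero]; linarith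
    rw [map_smul, smul_comm (c n), smul_smul, Complex.ofReal_inv, inv_mul_cancel₀ hne, one_smul]
  rw [← e]
  refine key.trans ?_
  have : (N : ℝ) * (40 / N) = 40 := by field_simp
  rw [this]
  have hc : 0 ≤ B * M * S.card := by positivity
  nlinarith

end Pool.Agent.TH327.Thin
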