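import Pool.Agent.TH327.Thin.Fej

/-! Localised synthesis of a bounded sequence whose spectrum lies in a given set. -/

set_option autoImplicit false

open Filter Topology MeasureTheory Set

namespace Pool.Agent.TH327.Thin

/-- the sequence `a` has its spectrum in `K` : each summable `f` whose Fourier series vanishes in
an open set containing `K` annihilates it -/
def SpecIn {E : Type*} [NormedAddCommGroup E] [NormedSpace ℂ E] (K : Set UnitAddCircle)
    (a : ℤ → E) : Prop :=
  ∀ f : ℤ → ℂ, Summable (fun n => ‖f n‖) →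
    (∃ U : Set UnitAddCircle, IsOpen U ∧ K ⊆ U ∧ ∀ η ∈ U, ∑' n, f n * fourier n η = 0) →
    ∑' n, f n • a n = 0

variable {E : Type*} [NormedAddCommGroup E] [NormedSpace ℂ E]

/-- the localised transform -/
noncomputable def FT (a : ℤ → E) (δ : ℝ) (η : UnitAddCircle) : E :=
  ∑' m, ((W δ m : ℂ) * fourier (-m) η) • a m

lemma fourier_sub_arg (m : ℤ) (ζ η : UnitAddCircle) :
    (fourier m (ζ - η) : ℂ) = fourier m ζ * fourier (-m) η := by
  rw [fourier_apply, fourier_apply, fourier_apply, zsmul_sub, sub_eq_add_neg,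
    AddCircle.toCircle_add, Circle.coe_mul, neg_zsmul]

lemma norm_fourier_apply (m : ℤ) (η : UnitAddCircle) : ‖(fourier m η : ℂ)‖ = 1 :=
  Circle.norm_coe _

lemma FT_zero {K : Set UnitAddCircle} {a : ℤ → E} (h : SpecIn K a) {δ : ℝ} (h0 : 0 < δ)
    (h1 : δ ≤ 1 / 2) {η : UnitAddCircle} (hη : ∀ ζ ∈ K, δ < ‖ζ - η‖) : FT a δ η = 0 := by
  refine h (fun m => (W δ m : ℂ) * fourier (-m) η) ?_
    ⟨{ζ | δ < ‖ζ - η‖}, isOpen_lt continuous_const (by fun_prop), hη, ?_⟩
  · refine (summable_W δ h0).congr fun m => ?_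
    rw [norm_mul, norm_fourier_apply, mul_one, Complex.norm_real, Real.norm_eq_abs,
      abs_of_nonneg (W_nonneg δ h0 m)]
  · intro ζ hζ
    have := (hasSum_W δ h0 h1 (ζ - η)).tsum_eq
    rw [tri_eq_zero δ h0 _ (le_of_lt hζ)] at this
    rw [← this]
    refine tsum_congr fun m => ?_
    rw [fourier_sub_arg]
    ring

lemma norm_term {a : ℤ → E} {B : ℝ} (hB : ∀ n, ‖a n‖ ≤ B) {δ : ℝ} (h0 : 0 < δ) (m : ℤ)
    (η : UnitAddCircle) : ‖((W δ m : ℂ) * fourier (-m) η) • a m‖ ≤ W δ m * B := by
  rw [norm_smul, norm_mul, norm_fourier_apply, mul_one, Complex.norm_real, Real.norm_eq_abs,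
      abs_of_nonneg (W_nonneg δ h0 m)]
  exact mul_le_mul_of_nonneg_left (hB m) (W_nonneg δ h0 m)

lemma FT_norm {a : ℤ → E} {B : ℝ} (hB : ∀ n, ‖a n‖ ≤ B) {δ : ℝ} (h0 : 0 < δ)
    (h1 : δ ≤ 1 / 2) (η : UnitAddCircle) : ‖FT a δ η‖ ≤ B / δ := by
  have hs : HasSum (fun m => W δ m * B) (1 / δ * B) := by
    have := (summable_W δ h0).hasSum
    rw [tsum_W δ h0 h1] at this
    exact this.mul_right B
  refine (tsum_of_norm_bounded hs fun m => norm_term hB h0 m η).trans (le_of_eq (by ring))

lemma FT_cont [CompleteSpace E] {a : ℤ → E} {B : ℝ} (hB : ∀ n, ‖a n‖ ≤ B) {δ : ℝ} (h0 : 0 < δ) :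
    Continuous (FT a δ) := by
  refine continuous_tsum (u := fun m => W δ m * B) (fun m => ?_) ((summable_W δ h0).mul_right B)
    (fun m η => norm_term hB h0 m η)
  exact (continuous_const.mul (map_continuous (fourier (-m)))).smul continuous_const

lemma vol_univ : (volume : Measure UnitAddCircle).real univ = 1 := by
  simp [Measure.real, UnitAddCircle.measure_univ]

lemma integral_fourier (n : ℤ) : ∫ η : UnitAddCircle, (fourier n η : ℂ) = if n = 0 then 1 else 0 := by
  split_ifs with h
  · subst h
    simp [vol_univ]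
  · exact integral_eq_zero_of_add_right_eq_neg (μ := volume)
      (fun x => fourier_add_half_inv_index h one_pos x)

lemma FT_coeff [CompleteSpace E] {a : ℤ → E} {B : ℝ} (hB : ∀ n, ‖a n‖ ≤ B) {δ : ℝ} (h0 : 0 < δ)
    (n : ℤ) : ∫ η : UnitAddCircle, (fourier n η : ℂ) • FT a δ η = (W δ n : ℂ) • a n := by
  have hi : ∀ m : ℤ, Integrable (fun η : UnitAddCircle =>
      ((W δ m : ℂ) * (fourier n η * fourier (-m) η)) • a m) volume := by
    intro m
    apply Continuous.integrable_of_hasCompactSupport
    · exact (continuous_const.mul ((map_continuous (fourier n)).mul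
        (map_continuous (fourier (-m))))).smul continuous_const
    · exact HasCompactSupport.of_compactSpace _
  have e : ∀ η : UnitAddCircle, (fourier n η : ℂ) • FT a δ η =
      ∑' m, ((W δ m : ℂ) * (fourier n η * fourier (-m) η)) • a m := by
    intro η
    unfold FT
    have hs : Summable fun m : ℤ => ((W δ m : ℂ) * fourier (-m) η) • a m :=
      Summable.of_norm_bounded ((summable_W δ h0).mul_right B) (fun m => norm_term hB h0 m η)
    rw [← hs.tsum_const_smul]
    refine tsum_congr fun m => ?_
    rw [smul_smul]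
    congr 1
    ring
  rw [integral_congr_ae (Filter.Eventually.of_forall e)]
  have hnorm : ∀ (m : ℤ) (η : UnitAddCircle),
      ‖((W δ m : ℂ) * (fourier n η * fourier (-m) η)) • a m‖ ≤ W δ m * B := by
    intro m η
    rw [norm_smul, norm_mul, norm_mul, norm_fourier_apply, norm_fourier_apply, mul_one, mul_one,
      Complex.norm_real, Real.norm_eq_abs, abs_of_nonneg (W_nonneg δ h0 m)]
    exact mul_le_mul_of_nonneg_left (hB m) (W_nonneg δ h0 m)
  have hsum : Summable fun m : ℤ => ∫ η : UnitAddCircle,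
      ‖((W δ m : ℂ) * (fourier n η * fourier (-m) η)) • a m‖ := by
    refine Summable.of_nonneg_of_le (fun m => integral_nonneg fun η => norm_nonneg _) (fun m => ?_)
      ((summable_W δ h0).mul_right B)
    calc ∫ η : UnitAddCircle, ‖((W δ m : ℂ) * (fourier n η * fourier (-m) η)) • a m‖
        ≤ ∫ η : UnitAddCircle, W δ m * B :=
          integral_mono (hi m).norm (integrable_const _) (hnorm m)
      _ = W δ m * B := by simp [vol_univ]
  have h := hasSum_integral_of_summable_integral_norm hi hsum
  rw [← h.tsum_eq]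
  rw [tsum_eq_single n]
  · rw [integral_smul_const, integral_const_mul]
    congr 1
    have : ∀ η : UnitAddCircle, (fourier n η : ℂ) * fourier (-n) η = 1 := by
      intro η
      rw [← fourier_add]
      simp
    simp_rw [this]
    simp [vol_univ]
  · intro m hm
    rw [integral_smul_const, integral_const_mul]
    have : ∀ η : UnitAddCircle, (fourier n η : ℂ) * fourier (-m) η = fourier (n - m) η := by
      intro η
      rw [← fourier_add]
      rfl
    simp only [this]
    rw [integral_fourier, if_neg (by omega), mul_zero, zero_smul]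

end Pool.Agent.TH327.Thin
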